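import Mathlib
import Pool.Agent.Lib.MP_209724_lc.GP.Low
import Pool.Agent.Lib.MP_209724_lc.GS.QLin
import Pool.Agent.Lib.MP_209724_lc.GC.CoreB
import Pool.Agent.Lib.MP_209724_lc.MV.Sheets

section

namespace Pool.Agent.Lib.MP_209724_lc.GD

open Filter Topology Metric Set

variable {n : ℕ}

/-- Means of powers of a unit number different from `1` tend to `0`. -/
private theorem kron_mean_geom {z : ℂ} (hz : ‖z‖ = 1) (hz1 : z ≠ 1) :
    Tendsto (fun A : ℕ => (A : ℂ)⁻¹ * ∑ s ∈ Finset.range A, z ^ s) atTop (𝓝 0) := by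
  rw [tendsto_zero_iff_norm_tendsto_zero]
  have hz0 : z - 1 ≠ 0 := sub_ne_zero.mpr hz1
  have hb : ∀ A : ℕ, ‖(A : ℂ)⁻¹ * ∑ s ∈ Finset.range A, z ^ s‖ ≤
      (A : ℝ)⁻¹ * (2 / ‖z - 1‖) := by
    intro A
    rw [norm_mul, norm_inv, Complex.norm_natCast, geom_sum_eq hz1, norm_div]
    refine mul_le_mul_of_nonneg_left ?_ (by positivity)
    refine div_le_div_of_nonneg_right ?_ (norm_nonneg _)
    calc ‖z ^ A - 1‖ ≤ ‖z ^ A‖ + ‖(1 : ℂ)‖ := norm_sub_le _ _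
      _ = 2 := by rw [norm_pow, hz, one_pow, norm_one]; norm_num
  refine squeeze_zero (fun _ => norm_nonneg _) hb ?_
  have h1 : Tendsto (fun A : ℕ => (A : ℝ)⁻¹ * (2 / ‖z - 1‖)) atTop
      (𝓝 (0 * (2 / ‖z - 1‖))) :=
    (tendsto_inv_atTop_zero.comp tendsto_natCast_atTop_atTop).mul_const _
  rwa [zero_mul] at h1

/-- Fourier expansion of the kernel `((1 + cos θ) / 2) ^ N`. -/
private theorem kron_kernel (θ : ℝ) (N : ℕ) :
    ((((1 + Real.cos θ) / 2) ^ N : ℝ) : ℂ) =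
      ∑ k ∈ Finset.range (2 * N + 1), (((2 * N).choose k : ℂ) / 4 ^ N) *
        Complex.exp ((((k : ℤ) - N : ℤ) : ℂ) * θ * Complex.I) := by
  set w : ℂ := Complex.exp (θ * Complex.I) with hw
  have hw0 : w ≠ 0 := Complex.exp_ne_zero _
  have hcos : ((Real.cos θ : ℝ) : ℂ) = (w + w⁻¹) / 2 := by
    rw [Complex.ofReal_cos, Complex.cos, hw, ← Complex.exp_neg]
    congr 3
    ring_nf
  have h1 : ((((1 + Real.cos θ) / 2) ^ N : ℝ) : ℂ) = (w + 1) ^ (2 * N) * (w ^ N)⁻¹ / 4 ^ N := by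
    push_cast
    push_cast at hcos
    rw [hcos]
    have h2 : ((1 : ℂ) + (w + w⁻¹) / 2) / 2 = (w + 1) ^ 2 * w⁻¹ / 4 := by
      field_simp
      ring
    rw [h2, div_pow, mul_pow, ← pow_mul, inv_pow]
  rw [h1, add_pow, Finset.sum_mul, Finset.sum_div]
  refine Finset.sum_congr rfl fun k _ => ?_
  have h3 : Complex.exp ((((k : ℤ) - N : ℤ) : ℂ) * θ * Complex.I) = w ^ k * (w ^ N)⁻¹ := by
    rw [hw, ← Complex.exp_nat_mul, ← Complex.exp_nat_mul, ← Complex.exp_neg, ← Complex.exp_add]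
    congr 1
    push_cast
    ring
  rw [h3, one_pow]
  ring

/-- **Kronecker's theorem.** If no nonzero integral linear form vanishes on the real subspace `T`, then
`T + 2πℤⁿ` is dense in `ℝⁿ`.

Proof. For each `m ≠ 0` the subspace `T_m = {τ ∈ T | ∑ m_i τ_i = 0}` of `T` is proper; a finite
dimensional real vector space is not a countable union of proper subspaces (Baire category:
`nonempty_interior_of_iUnion_of_closed` and a proper subspace has empty interior; or measure zero), so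
there is `τ ∈ T` with `∑ m_i τ_i ≠ 0` for all `m ≠ 0`. For every continuous `f : UnitAddTorus (Fin n) → ℂ`
(`UnitAddTorus (Fin n) = Fin n → UnitAddCircle`) the means `(1/A) ∫_0^A f(s τ / (2π)) ds` tend, as
`A → ∞`, to `∫ f`: for `f = mFourier m` this is a computation (`m = 0`: `1`; `m ≠ 0`:
`(1/A) ∫_0^A e^{i s (m·τ)} ds → 0`), for linear combinations by linearity, and for all continuous `f` by
uniform approximation (`UnitAddTorus.span_mFourier_closure_eq_top`). [Alternatively avoid integrals over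
the torus: let `λ f` be the limit for `f` in the span; it is enough to know that `λ` of a trigonometric
polynomial is its constant coefficient.] Now suppose that no point `s τ + 2πm` is within `ε` of `y`; take a
continuous `f ≥ 0` on the torus which is supported in the `ε / (2π)`-ball around the class of `y/(2π)`,
`f ≠ 0`. Then all means vanish but `∫ f > 0`. So there are `s` and `m` with `|s τ_i - y_i - 2π m_i| ≤ ε`.

Other proofs are welcome (for instance: the closure of `T + 2πℤⁿ` is a closed subgroup; or induction on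
`n`; or Dirichlet/pigeonhole and duality). -/
theorem kronecker (T : Submodule ℝ (Fin n → ℝ))
    (hT : ∀ m : Fin n → ℤ, m ≠ 0 → ∃ τ ∈ T, ∑ i, (m i : ℝ) * τ i ≠ 0) (y : Fin n → ℝ) {ε : ℝ}
    (hε : 0 < ε) :
    ∃ τ ∈ T, ∃ m : Fin n → ℤ, ∀ i, |τ i - y i - 2 * Real.pi * m i| ≤ ε := by
  classical
  by_contra hcon
  have hno : ∀ τ ∈ T, ∀ m : Fin n → ℤ, ∃ i, ε < |τ i - y i - 2 * Real.pi * m i| := by
    intro τ hτ m
    by_contra hc
    push Not at hc
    exact hcon ⟨τ, hτ, m, hc⟩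
  have hpi : 0 < Real.pi := Real.pi_pos
  set ε' : ℝ := min ε Real.pi with hε'
  have hε'0 : 0 < ε' := lt_min hε hpi
  have hε'pi : ε' ≤ Real.pi := min_le_right _ _
  have hε'ε : ε' ≤ ε := min_le_left _ _
  set q : ℝ := (1 + Real.cos ε') / 2 with hq
  have hq0 : 0 ≤ q := by
    have := Real.neg_one_le_cos ε'
    rw [hq]; linarith
  have hq1 : q < 1 := by
    have h1 : Real.cos ε' < Real.cos 0 :=
      Real.cos_lt_cos_of_nonneg_of_le_pi le_rfl hε'pi hε'0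
    rw [Real.cos_zero] at h1
    rw [hq]; linarith
  have hfac : ∀ x : ℝ, 0 ≤ (1 + Real.cos x) / 2 ∧ (1 + Real.cos x) / 2 ≤ 1 := by
    intro x
    have h1 := Real.neg_one_le_cos x
    have h2 := Real.cos_le_one x
    constructor <;> linarith
  -- one coordinate is bad
  have hbad : ∀ τ ∈ T, ∃ i, (1 + Real.cos (τ i - y i)) / 2 ≤ q := by
    intro τ hτ
    obtain ⟨i, hi⟩ := hno τ hτ fun i => round ((τ i - y i) / (2 * Real.pi))
    refine ⟨i, ?_⟩
    set m : ℤ := round ((τ i - y i) / (2 * Real.pi)) with hm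
    have h1 : |(τ i - y i) / (2 * Real.pi) - m| ≤ 1 / 2 := abs_sub_round _
    have h2 : |τ i - y i - 2 * Real.pi * m| ≤ Real.pi := by
      have h3 : τ i - y i - 2 * Real.pi * m = (2 * Real.pi) * ((τ i - y i) / (2 * Real.pi) - m) := by
        field_simp
      rw [h3, abs_mul, abs_of_pos (by positivity)]
      calc 2 * Real.pi * |(τ i - y i) / (2 * Real.pi) - m| ≤ 2 * Real.pi * (1 / 2) :=
            mul_le_mul_of_nonneg_left h1 (by positivity)
        _ = Real.pi := by ring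
    have h4 : Real.cos (τ i - y i) = Real.cos |τ i - y i - 2 * Real.pi * m| := by
      rw [Real.cos_abs]
      have h5 : τ i - y i - 2 * Real.pi * m = τ i - y i - m * (2 * Real.pi) := by ring
      rw [h5, Real.cos_sub_int_mul_two_pi]
    have h6 : Real.cos |τ i - y i - 2 * Real.pi * m| ≤ Real.cos ε' :=
      Real.cos_le_cos_of_nonneg_of_le_pi hε'0.le h2 (hε'ε.trans hi.le)
    rw [h4, hq]
    linarith
  -- choice of the degree
  obtain ⟨N, hN1, hN⟩ : ∃ N : ℕ, 1 ≤ N ∧ (2 * (N : ℝ)) ^ n * q ^ N < 1 := by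
    have h1 : Tendsto (fun m : ℕ => (2 : ℝ) ^ n * ((m : ℝ) ^ n * q ^ m)) atTop
        (𝓝 ((2 : ℝ) ^ n * 0)) :=
      (tendsto_pow_const_mul_const_pow_of_abs_lt_one n (by
        rw [abs_of_nonneg hq0]; exact hq1)).const_mul _
    rw [mul_zero] at h1
    have h2 := (h1.eventually (gt_mem_nhds zero_lt_one)).and (eventually_ge_atTop 1)
    obtain ⟨N, hN, hN1⟩ := h2.exists
    refine ⟨N, hN1, ?_⟩
    calc (2 * (N : ℝ)) ^ n * q ^ N = (2 : ℝ) ^ n * ((N : ℝ) ^ n * q ^ N) := by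
          rw [mul_pow]; ring
      _ < 1 := hN
  set c : ℝ := ((2 * N).choose N : ℝ) / 4 ^ N with hc
  have hNpos : (0 : ℝ) < 2 * (N : ℝ) := by
    have : (1 : ℝ) ≤ N := by exact_mod_cast hN1
    linarith
  have hc1 : 1 ≤ 2 * (N : ℝ) * c := by
    have h1 := Nat.four_pow_le_two_mul_self_mul_centralBinom N (by omega)
    rw [Nat.centralBinom_eq_two_mul_choose] at h1
    have h2 : (4 : ℝ) ^ N ≤ 2 * N * ((2 * N).choose N : ℝ) := by exact_mod_cast h1
    rw [hc, mul_div_assoc', le_div_iff₀ (by positivity), one_mul]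
    exact h2
  have hcn : q ^ N < c ^ n := by
    have h1 : 1 ≤ (2 * (N : ℝ)) ^ n * c ^ n := by
      rw [← mul_pow]
      exact one_le_pow₀ hc1
    have h2 : (0 : ℝ) < (2 * (N : ℝ)) ^ n := by positivity
    by_contra hle
    push Not at hle
    have := mul_le_mul_of_nonneg_left hle h2.le
    linarith
  -- a generic small vector of `T`
  set K : Finset (Fin n → ℕ) := Fintype.piFinset fun _ => Finset.range (2 * N + 1) with hK
  set k₀ : Fin n → ℕ := fun _ => N with hk₀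
  have hk₀K : k₀ ∈ K := by
    rw [hK, Fintype.mem_piFinset]
    intro i
    rw [Finset.mem_range, hk₀]
    dsimp only
    omega
  let φ : (Fin n → ℕ) → (Fin n → ℝ) →ₗ[ℝ] ℝ := fun k =>
    ∑ i, (((k i : ℤ) - N : ℤ) : ℝ) • LinearMap.proj i
  have hφ : ∀ k τ, φ k τ = ∑ i, (((k i : ℤ) - N : ℤ) : ℝ) * τ i := by
    intro k τ
    simp [φ, LinearMap.sum_apply]
  obtain ⟨τ₀, hτ₀T, hτ₀⟩ := Module.Dual.exists_forall_mem_ne_zero_of_forall_exists T
    (fun k : {k : Fin n → ℕ // k ∈ K.erase k₀} => (φ k.1 : Module.Dual ℝ (Fin n → ℝ)))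
    (by
      rintro ⟨k, hk⟩
      have hkne : k ≠ k₀ := (Finset.mem_erase.mp hk).1
      obtain ⟨τ, hτ, hne⟩ := hT (fun i => (k i : ℤ) - N) (by
        intro h0
        apply hkne
        funext i
        have := congrFun h0 i
        simp only [Pi.zero_apply] at this
        rw [hk₀]
        dsimp only
        omega)
      refine ⟨τ, hτ, ?_⟩
      change φ k τ ≠ 0
      rw [hφ]
      exact hne)
  have hτ₀' : ∀ k ∈ K, k ≠ k₀ → φ k τ₀ ≠ 0 := fun k hk hne =>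
    hτ₀ ⟨k, Finset.mem_erase.mpr ⟨hne, hk⟩⟩
  set Sg : ℝ := 1 + ∑ k ∈ K, |φ k τ₀| with hSg
  have hSg0 : 0 < Sg := by
    have : 0 ≤ ∑ k ∈ K, |φ k τ₀| := Finset.sum_nonneg fun _ _ => abs_nonneg _
    rw [hSg]; linarith
  set τ : Fin n → ℝ := (Sg⁻¹) • τ₀ with hτ
  have hτT : τ ∈ T := T.smul_mem _ hτ₀T
  have hφτ : ∀ k, φ k τ = Sg⁻¹ * φ k τ₀ := by
    intro k
    rw [hτ, map_smul, smul_eq_mul]
  have hsmall : ∀ k ∈ K, |φ k τ| < 1 := by
    intro k hk
    rw [hφτ, abs_mul, abs_of_pos (inv_pos.mpr hSg0), inv_mul_lt_iff₀ hSg0, mul_one, hSg]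
    have := Finset.single_le_sum (f := fun k => |φ k τ₀|) (fun i _ => abs_nonneg _) hk
    linarith
  let z : (Fin n → ℕ) → ℂ := fun k => Complex.exp ((φ k τ : ℝ) * Complex.I)
  have hznorm : ∀ k, ‖z k‖ = 1 := fun k => Complex.norm_exp_ofReal_mul_I _
  have hz0 : z k₀ = 1 := by
    have h1 : φ k₀ τ = 0 := by
      rw [hφ]
      refine Finset.sum_eq_zero fun i _ => ?_
      rw [hk₀]
      simp
    change Complex.exp ((φ k₀ τ : ℝ) * Complex.I) = 1
    rw [h1]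
    simp
  have hz1 : ∀ k ∈ K, k ≠ k₀ → z k ≠ 1 := by
    intro k hk hne h1
    obtain ⟨m, hm⟩ := Complex.exp_eq_one_iff.mp h1
    have h2 : ((φ k τ : ℝ) : ℂ) = ((m * (2 * Real.pi) : ℝ) : ℂ) := by
      have h3 : ((φ k τ : ℝ) : ℂ) * Complex.I = ((m * (2 * Real.pi) : ℝ) : ℂ) * Complex.I := by
        rw [hm]; push_cast; ring
      exact mul_right_cancel₀ Complex.I_ne_zero h3
    have h4 : φ k τ = m * (2 * Real.pi) := by exact_mod_cast h2
    have h5 := hsmall k hk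
    have h6 : φ k τ ≠ 0 := by
      rw [hφτ]
      exact mul_ne_zero (inv_ne_zero hSg0.ne') (hτ₀' k hk hne)
    have hm0 : m ≠ 0 := by
      rintro rfl
      apply h6
      rw [h4]; simp
    have h7 : (1 : ℝ) ≤ |(m : ℝ)| := by
      rw [← Int.cast_abs]
      exact_mod_cast Int.one_le_abs hm0
    rw [h4, abs_mul, abs_of_pos (by positivity : (0 : ℝ) < 2 * Real.pi)] at h5
    have h8 := Real.pi_gt_three
    nlinarith
  -- the kernel along the multiples of `τ`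
  let F : ℕ → ℝ := fun s => ∏ i, ((1 + Real.cos ((s : ℝ) * τ i - y i)) / 2) ^ N
  have hFle : ∀ s, F s ≤ q ^ N := by
    intro s
    obtain ⟨i, hi⟩ := hbad ((s : ℝ) • τ) (T.smul_mem _ hτT)
    rw [Pi.smul_apply, smul_eq_mul] at hi
    change ∏ i, ((1 + Real.cos ((s : ℝ) * τ i - y i)) / 2) ^ N ≤ q ^ N
    rw [← Finset.mul_prod_erase Finset.univ _ (Finset.mem_univ i)]
    calc ((1 + Real.cos ((s : ℝ) * τ i - y i)) / 2) ^ N *
        ∏ j ∈ Finset.univ.erase i, ((1 + Real.cos ((s : ℝ) * τ j - y j)) / 2) ^ N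
        ≤ q ^ N * 1 := by
          refine mul_le_mul (pow_le_pow_left₀ (hfac _).1 hi _) ?_
            (Finset.prod_nonneg fun j _ => pow_nonneg (hfac _).1 _) (pow_nonneg hq0 _)
          exact Finset.prod_le_one (fun j _ => pow_nonneg (hfac _).1 _)
            fun j _ => pow_le_one₀ (hfac _).1 (hfac _).2
      _ = q ^ N := mul_one _
  let a : (Fin n → ℕ) → ℂ := fun k => ∏ i, ((((2 * N).choose (k i) : ℂ) / 4 ^ N) *
    Complex.exp (-((((k i : ℤ) - N : ℤ) : ℂ) * y i * Complex.I)))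
  have hFexp : ∀ s : ℕ, ((F s : ℝ) : ℂ) = ∑ k ∈ K, a k * z k ^ s := by
    intro s
    change ((∏ i, ((1 + Real.cos ((s : ℝ) * τ i - y i)) / 2) ^ N : ℝ) : ℂ) = _
    rw [Complex.ofReal_prod]
    have h1 : ∀ i, ((((1 + Real.cos ((s : ℝ) * τ i - y i)) / 2) ^ N : ℝ) : ℂ) = _ := fun i =>
      kron_kernel ((s : ℝ) * τ i - y i) N
    rw [Finset.prod_congr rfl fun i _ => h1 i, Finset.prod_univ_sum]
    refine Finset.sum_congr rfl fun k _ => ?_
    change _ = (∏ i, ((((2 * N).choose (k i) : ℂ) / 4 ^ N) *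
      Complex.exp (-((((k i : ℤ) - N : ℤ) : ℂ) * y i * Complex.I)))) *
      Complex.exp ((φ k τ : ℝ) * Complex.I) ^ s
    have h2 : Complex.exp ((φ k τ : ℝ) * Complex.I) ^ s =
        ∏ i, Complex.exp ((((k i : ℤ) - N : ℤ) : ℂ) * ((s : ℝ) * τ i : ℝ) * Complex.I) := by
      rw [← Complex.exp_nat_mul, ← Complex.exp_sum, hφ]
      congr 1
      push_cast
      rw [Finset.sum_mul, Finset.mul_sum]
      refine Finset.sum_congr rfl fun i _ => ?_
      ring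
    rw [h2, ← Finset.prod_mul_distrib]
    refine Finset.prod_congr rfl fun i _ => ?_
    rw [mul_assoc (((2 * N).choose (k i) : ℂ) / 4 ^ N)
      (Complex.exp (-((((k i : ℤ) - N : ℤ) : ℂ) * y i * Complex.I))), ← Complex.exp_add]
    congr 2
    push_cast
    ring
  have ha0 : a k₀ = ((c ^ n : ℝ) : ℂ) := by
    change ∏ i, ((((2 * N).choose (k₀ i) : ℂ) / 4 ^ N) *
      Complex.exp (-((((k₀ i : ℤ) - N : ℤ) : ℂ) * y i * Complex.I))) = _
    have h1 : ∀ i ∈ (Finset.univ : Finset (Fin n)), ((((2 * N).choose (k₀ i) : ℂ) / 4 ^ N) *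
      Complex.exp (-((((k₀ i : ℤ) - N : ℤ) : ℂ) * y i * Complex.I))) = ((c : ℝ) : ℂ) := by
      intro i _
      rw [hk₀, hc]
      push_cast
      simp
    rw [Finset.prod_congr rfl h1, Finset.prod_const, Finset.card_univ, Fintype.card_fin]
    push_cast
    rfl
  have hmean : Tendsto (fun A : ℕ => (A : ℂ)⁻¹ * ∑ s ∈ Finset.range A, ((F s : ℝ) : ℂ)) atTop
      (𝓝 (((c ^ n : ℝ) : ℂ))) := by
    have h1 : ∀ A : ℕ, (A : ℂ)⁻¹ * ∑ s ∈ Finset.range A, ((F s : ℝ) : ℂ) =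
        ∑ k ∈ K, a k * ((A : ℂ)⁻¹ * ∑ s ∈ Finset.range A, z k ^ s) := by
      intro A
      rw [Finset.sum_congr rfl fun s _ => hFexp s, Finset.sum_comm, Finset.mul_sum]
      refine Finset.sum_congr rfl fun k _ => ?_
      rw [← Finset.mul_sum]
      ring
    have h2 : Tendsto (fun A : ℕ => ∑ k ∈ K, a k *
        ((A : ℂ)⁻¹ * ∑ s ∈ Finset.range A, z k ^ s)) atTop
        (𝓝 (∑ k ∈ K, a k * if k = k₀ then 1 else 0)) := by
      refine tendsto_finsetSum _ fun k hk => ?_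
      refine Tendsto.const_mul _ ?_
      by_cases hkk : k = k₀
      · rw [if_pos hkk, hkk]
        refine tendsto_const_nhds.congr' ?_
        filter_upwards [eventually_ge_atTop 1] with A hA
        have hA0 : (A : ℂ) ≠ 0 := by
          exact_mod_cast (by omega : A ≠ 0)
        rw [hz0]
        simp [hA0]
      · rw [if_neg hkk]
        exact kron_mean_geom (hznorm k) (hz1 k hk hkk)
    have h3 : ∑ k ∈ K, a k * (if k = k₀ then 1 else 0) = ((c ^ n : ℝ) : ℂ) := by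
      rw [Finset.sum_eq_single_of_mem k₀ hk₀K]
      · rw [if_pos rfl, mul_one, ha0]
      · intro k _ hne
        rw [if_neg hne, mul_zero]
    rw [h3] at h2
    exact h2.congr fun A => (h1 A).symm
  have hmeanR : Tendsto (fun A : ℕ => (A : ℝ)⁻¹ * ∑ s ∈ Finset.range A, F s) atTop
      (𝓝 (c ^ n)) := by
    have h1 := (Complex.continuous_re.tendsto _).comp hmean
    rw [Complex.ofReal_re] at h1
    refine h1.congr fun A => ?_
    have h2 : (A : ℂ)⁻¹ * ∑ s ∈ Finset.range A, ((F s : ℝ) : ℂ) =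
        (((A : ℝ)⁻¹ * ∑ s ∈ Finset.range A, F s : ℝ) : ℂ) := by
      push_cast
      rfl
    rw [Function.comp_apply, h2, Complex.ofReal_re]
  have hle : c ^ n ≤ q ^ N := by
    refine le_of_tendsto hmeanR ?_
    filter_upwards [eventually_ge_atTop 1] with A hA
    have hA0 : (0 : ℝ) < A := by exact_mod_cast hA
    rw [inv_mul_le_iff₀ hA0]
    calc ∑ s ∈ Finset.range A, F s ≤ ∑ _s ∈ Finset.range A, q ^ N :=
          Finset.sum_le_sum fun s _ => hFle s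
      _ = A * q ^ N := by rw [Finset.sum_const, Finset.card_range, nsmul_eq_mul]
  exact absurd hcn (not_lt.mpr hle)

end Pool.Agent.Lib.MP_209724_lc.GD
end

section

namespace Pool.Agent.Lib.MP_209724_lc.GD

open Filter Topology Metric Set
open GS (Ew)

variable {n d : ℕ}

/-- **Relations pass to the limit.** `∑ α ∈ S, c ν α (t) exp(α · u) = 0` are relations with coefficients
which are almost constant at distance `R / r` (`hratio`); after division by the largest term at the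
center they tend to an exponential sum with constant coefficients.

Proof. Let `b ν α = c ν α (cen ν).1 * exp(α · (cen ν).2)`, which is nonzero for large `ν` and `α ∈ S`
(`hc0`), and `m ν > 0` the maximum of the `‖b ν α‖`, `α ∈ S`. The numbers `b ν α / m ν` are in the
closed unit disc, so they have limits `κ α` along `𝒰` (`IsCompact.ultrafilter_le_nhds`). For `𝒰`-many `ν`
one and the same `α ∈ S` has `‖b ν α‖ = m ν` (finite partition), so `‖κ α‖ = 1`. If `a`, `v` are as in the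
claim, `‖(a ν).1 - (cen ν).1‖ ≤ R / r ν` for `R = ‖v.1‖ + 1` and `𝒰`-many `ν`, so
`c ν α (a ν).1 / c ν α (cen ν).1 → 1` along `𝒰` by `hratio` (`‖(cen ν).1 - t₀‖ ≤ δ` eventually). Divide the
equation by `m ν`:
`∑ α, (b ν α / m ν) * (c ν α (a ν).1 / c ν α (cen ν).1) * exp(α · ((a ν).2 - (cen ν).2)) = 0`, and pass to
the limit. -/
theorem lam_rel (𝒰 : Ultrafilter ℕ) (h𝒰 : (𝒰 : Filter ℕ) ≤ atTop) (r : ℕ → ℝ)
    (hr0 : ∀ ν, 0 < r ν) {t₀ : Ew d} {δ : ℝ} (hδ : 0 < δ) (cen : ℕ → Ew d × (Fin n → ℂ))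
    (hcen1 : Tendsto (fun ν => (cen ν).1) atTop (𝓝 t₀)) (S : Finset (Fin n → ℕ))
    (hS : S.Nonempty) (c : ℕ → (Fin n → ℕ) → Ew d → ℂ)
    (hc0 : ∀ α ∈ S, ∀ᶠ ν in atTop, c ν α (cen ν).1 ≠ 0)
    (hratio : ∀ α ∈ S, ∀ R : ℝ, ∀ ε : ℝ, 0 < ε → ∀ᶠ ν in atTop, ∀ t, ‖t - t₀‖ ≤ δ →
      ∀ t', ‖t' - t‖ ≤ R / r ν → ‖c ν α t' / c ν α t - 1‖ ≤ ε) :
    ∃ κ : (Fin n → ℕ) → ℂ, (∃ α ∈ S, κ α ≠ 0) ∧
      ∀ (a : ℕ → Ew d × (Fin n → ℂ)) (v : Ew d × (Fin n → ℂ)),
        Tendsto (fun ν => (r ν : ℂ) • ((a ν).1 - (cen ν).1)) 𝒰 (𝓝 v.1) →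
        Tendsto (fun ν => (a ν).2 - (cen ν).2) 𝒰 (𝓝 v.2) →
        (∀ᶠ ν in 𝒰, ∑ α ∈ S, c ν α (a ν).1 * Complex.exp (∑ i, (α i : ℂ) * (a ν).2 i) = 0) →
        esum S κ v.2 = 0 := by
  classical
  set b : ℕ → (Fin n → ℕ) → ℂ := fun ν α =>
    c ν α (cen ν).1 * Complex.exp (∑ i, (α i : ℂ) * (cen ν).2 i) with hb
  set m : ℕ → ℝ := fun ν => S.sup' hS (fun α => ‖b ν α‖) with hm
  have hle : ∀ ν, ∀ α ∈ S, ‖b ν α‖ ≤ m ν := fun ν α hα =>
    Finset.le_sup' (fun α => ‖b ν α‖) hα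
  have hm0 : ∀ ν, 0 ≤ m ν := by
    intro ν
    obtain ⟨α, hα⟩ := hS
    exact (norm_nonneg _).trans (hle ν α hα)
  have hb0 : ∀ α ∈ S, ∀ᶠ ν in (𝒰 : Filter ℕ), b ν α ≠ 0 := by
    intro α hα
    filter_upwards [h𝒰 (hc0 α hα)] with ν hν
    exact mul_ne_zero hν (Complex.exp_ne_zero _)
  have hq1 : ∀ ν, ∀ α ∈ S, ‖b ν α / (m ν : ℂ)‖ ≤ 1 := by
    intro ν α hα
    rw [norm_div, Complex.norm_real, Real.norm_of_nonneg (hm0 ν)]
    exact div_le_one_of_le₀ (hle ν α hα) (hm0 ν)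
  have hlim : ∀ α, ∃ k : ℂ, α ∈ S → Tendsto (fun ν => b ν α / (m ν : ℂ)) 𝒰 (𝓝 k) := by
    intro α
    by_cases hα : α ∈ S
    · obtain ⟨k, -, hk⟩ := (isCompact_closedBall (0 : ℂ) 1).ultrafilter_le_nhds
        (𝒰.map (fun ν => b ν α / (m ν : ℂ))) (by
          rw [Filter.le_principal_iff]
          change ∀ᶠ ν in (𝒰 : Filter ℕ), b ν α / (m ν : ℂ) ∈ Metric.closedBall (0 : ℂ) 1
          exact Filter.Eventually.of_forall (fun ν => by
            simpa using hq1 ν α hα))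
      exact ⟨k, fun _ => hk⟩
    · exact ⟨0, fun h => absurd h hα⟩
  choose κ hκ using hlim
  refine ⟨κ, ?_, ?_⟩
  · have h1 : ∀ᶠ ν in (𝒰 : Filter ℕ), ∃ α ∈ (S : Set (Fin n → ℕ)), ‖b ν α‖ = m ν := by
      refine Filter.Eventually.of_forall (fun ν => ?_)
      obtain ⟨α, hα, h⟩ := Finset.exists_mem_eq_sup' hS (fun α => ‖b ν α‖)
      exact ⟨α, hα, h.symm⟩
    have h2 : ∃ α ∈ (S : Set (Fin n → ℕ)), ∀ᶠ ν in (𝒰 : Filter ℕ), ‖b ν α‖ = m ν := by
      by_contra hcon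
      push Not at hcon
      have h3 : ∀ᶠ ν in (𝒰 : Filter ℕ), ∀ α ∈ S, ¬ ‖b ν α‖ = m ν := by
        rw [Filter.eventually_all_finset]
        intro α hα
        exact hcon α hα
      obtain ⟨ν, ⟨α, hα, h4⟩, h5⟩ := (h1.and h3).exists
      exact h5 α hα h4
    obtain ⟨α, hα, h3⟩ := h2
    refine ⟨α, hα, ?_⟩
    have h4 : Tendsto (fun ν => ‖b ν α / (m ν : ℂ)‖) 𝒰 (𝓝 ‖κ α‖) := (hκ α hα).norm
    have h5 : (fun ν => ‖b ν α / (m ν : ℂ)‖) =ᶠ[𝒰] fun _ => (1 : ℝ) := by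
      filter_upwards [h3, hb0 α hα] with ν h6 h7
      rw [norm_div, Complex.norm_real, Real.norm_of_nonneg (hm0 ν), h6]
      exact div_self (h6 ▸ norm_ne_zero_iff.2 h7)
    have h6 : ‖κ α‖ = 1 := tendsto_nhds_unique h4 (tendsto_const_nhds.congr' h5.symm)
    intro h7
    rw [h7, norm_zero] at h6
    exact zero_ne_one h6
  · intro a v hv1 hv2 hrel
    have hR : ∀ᶠ ν in (𝒰 : Filter ℕ), ‖(a ν).1 - (cen ν).1‖ ≤ (‖v.1‖ + 1) / r ν := by
      have h1 := hv1.norm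
      have h2 : ∀ᶠ ν in (𝒰 : Filter ℕ), ‖(r ν : ℂ) • ((a ν).1 - (cen ν).1)‖ < ‖v.1‖ + 1 :=
        h1.eventually (gt_mem_nhds (by linarith))
      filter_upwards [h2] with ν h3
      rw [norm_smul, Complex.norm_real, Real.norm_of_nonneg (hr0 ν).le] at h3
      rw [le_div_iff₀ (hr0 ν), mul_comm]
      exact h3.le
    have hcδ : ∀ᶠ ν in (𝒰 : Filter ℕ), ‖(cen ν).1 - t₀‖ ≤ δ := by
      have h1 : ∀ᶠ ν in atTop, ‖(cen ν).1 - t₀‖ ≤ δ := by
        have h2 := (tendsto_iff_norm_sub_tendsto_zero.1 hcen1)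
        exact (h2.eventually (gt_mem_nhds hδ)).mono (fun ν h => h.le)
      exact h𝒰 h1
    have hρ : ∀ α ∈ S, Tendsto (fun ν => c ν α (a ν).1 / c ν α (cen ν).1) 𝒰 (𝓝 1) := by
      intro α hα
      rw [tendsto_iff_norm_sub_tendsto_zero, Metric.tendsto_nhds]
      intro ε hε
      filter_upwards [hR, hcδ, h𝒰 (hratio α hα (‖v.1‖ + 1) (ε / 2) (by positivity))] with ν h1 h2 h3
      have h4 := h3 (cen ν).1 h2 (a ν).1 h1
      rw [Real.dist_eq, sub_zero, abs_of_nonneg (norm_nonneg _)]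
      linarith
    have hexp : ∀ α : Fin n → ℕ, Tendsto
        (fun ν => Complex.exp (∑ i, (α i : ℂ) * ((a ν).2 - (cen ν).2) i)) 𝒰
        (𝓝 (Complex.exp (∑ i, (α i : ℂ) * v.2 i))) := by
      intro α
      refine (Complex.continuous_exp.tendsto _).comp ?_
      refine tendsto_finsetSum _ (fun i _ => ?_)
      refine Tendsto.const_mul _ ?_
      exact (tendsto_pi_nhds.1 hv2 i)
    have hsum : Tendsto (fun ν => ∑ α ∈ S, b ν α / (m ν : ℂ) *
        (c ν α (a ν).1 / c ν α (cen ν).1) *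
        Complex.exp (∑ i, (α i : ℂ) * ((a ν).2 - (cen ν).2) i)) 𝒰 (𝓝 (esum S κ v.2)) := by
      have h1 : esum S κ v.2 = ∑ α ∈ S, κ α * 1 * Complex.exp (∑ i, (α i : ℂ) * v.2 i) := by
        simp [esum]
      rw [h1]
      exact tendsto_finsetSum _ (fun α hα => ((hκ α hα).mul (hρ α hα)).mul (hexp α))
    have hzero : (fun ν => ∑ α ∈ S, b ν α / (m ν : ℂ) *
        (c ν α (a ν).1 / c ν α (cen ν).1) *
        Complex.exp (∑ i, (α i : ℂ) * ((a ν).2 - (cen ν).2) i)) =ᶠ[𝒰] fun _ => (0 : ℂ) := by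
      have hall : ∀ᶠ ν in (𝒰 : Filter ℕ), ∀ α ∈ S, c ν α (cen ν).1 ≠ 0 := by
        rw [Filter.eventually_all_finset]
        intro α hα
        exact h𝒰 (hc0 α hα)
      filter_upwards [hrel, hall] with ν h1 h2
      have h3 : ∀ α ∈ S, b ν α / (m ν : ℂ) * (c ν α (a ν).1 / c ν α (cen ν).1) *
          Complex.exp (∑ i, (α i : ℂ) * ((a ν).2 - (cen ν).2) i)
          = (c ν α (a ν).1 * Complex.exp (∑ i, (α i : ℂ) * (a ν).2 i)) / (m ν : ℂ) := by
        intro α hα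
        have h4 : ∑ i, (α i : ℂ) * ((a ν).2 - (cen ν).2) i
            = ∑ i, (α i : ℂ) * (a ν).2 i - ∑ i, (α i : ℂ) * (cen ν).2 i := by
          rw [← Finset.sum_sub_distrib]
          refine Finset.sum_congr rfl (fun i _ => ?_)
          rw [Pi.sub_apply, mul_sub]
        rw [h4, Complex.exp_sub, hb]
        have h5 := h2 α hα
        have h6 := Complex.exp_ne_zero (∑ i, (α i : ℂ) * (cen ν).2 i)
        simp only
        field_simp
      rw [Finset.sum_congr rfl h3, ← Finset.sum_div, h1, zero_div]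
    exact tendsto_nhds_unique hsum (tendsto_const_nhds.congr' hzero.symm)

end Pool.Agent.Lib.MP_209724_lc.GD
end

section

namespace Pool.Agent.Lib.MP_209724_lc.GD

open Filter Topology Metric Set
open GS (Ew)

variable {n d : ℕ}

/-- **Moving in `Λ`.** `Λ` is a set of pairs `(ζ, w)` on which `(ζ, w) ↦ L ζ - w` is uniformly open
(`LamOpen`) and whose `w` are zeros of nondegenerate exponential sums. From a point `v` of `Λ` one can
reach any `ζ'` approximately without changing `w` much.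

Proof. For `s ∈ [0, 1]` let `ζ_s = v.1 + s (ζ' - v.1)`, `c_s = L ζ_s - v.2`. If `v' ∈ Λ` has
`L v'.1 - v'.2 = c_s`, then with `θ = v'.1 - ζ_s` we have `v'.2 = v.2 + L θ`, so by `hΛ` `θ` is a common
zero of the sums `∑ α, (κ j α exp(α · v.2)) exp(α · L θ)`. At `θ = 0` they vanish (`v ∈ Λ`), so
`GP.sphere_of_sel` gives `0 < σ < ε` such that they have no common zero with `‖θ‖ = σ`; by compactness
of the sphere there is `0 < τ < σ` such that they have none with `|‖θ‖ - σ| ≤ τ` (the function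
`θ ↦ ∑ j, ‖esum ..‖` is continuous; or: otherwise a sequence of zeros `θ_m` with `‖θ_m‖ → σ` has a limit
point). Let `c₀` be the constant of `hopen` for `R₀ = τ / 2`, and `N` so large that
`‖ζ' - v.1‖ / N ≤ τ / 2` and `‖L‖ ‖ζ' - v.1‖ / N ≤ c₀`. By induction on `j ≤ N` there is `v_j ∈ Λ` with
`L v_j.1 - v_j.2 = c_{j/N}` and `‖v_j.1 - ζ_{j/N}‖ < σ`: by `hopen` for `v_j` and `c_{(j+1)/N}` there is
`v_{j+1} ∈ Λ` with value `c_{(j+1)/N}` and `‖v_{j+1}.1 - v_j.1‖ ≤ τ / 2`, so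
`‖v_{j+1}.1 - ζ_{(j+1)/N}‖ < σ + τ`, and it is a common zero, so it is `< σ - τ`. Take `j = N`. -/
theorem chain {J : Type} [Fintype J] (S : J → Finset (Fin n → ℕ)) (L : Ew d →L[ℂ] (Fin n → ℂ))
    (hsel : ∀ b : Ew d, ∀ α β : J → Fin n → ℕ, (∀ j, α j ∈ S j ∧ β j ∈ S j ∧ α j ≠ β j) →
      (∀ j, ∑ i, ((α j i : ℂ) - β j i) * L b i = 0) → b = 0)
    (κ : J → (Fin n → ℕ) → ℂ) (hκ : ∀ j, ∃ α ∈ S j, κ j α ≠ 0) (Λ : Set (Ew d × (Fin n → ℂ)))
    (hopen : LamOpen L Λ) (hΛ : ∀ v ∈ Λ, ∀ j, esum (S j) (κ j) v.2 = 0)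
    {v : Ew d × (Fin n → ℂ)} (hv : v ∈ Λ) (ζ' : Ew d) {ε : ℝ} (hε : 0 < ε) :
    ∃ v' ∈ Λ, ‖v'.1 - ζ'‖ ≤ ε ∧ L v'.1 - v'.2 = L ζ' - v.2 := by
  classical
  set a : J → (Fin n → ℕ) → ℂ := fun j α => κ j α * Complex.exp (∑ i, (α i : ℂ) * v.2 i) with hadef
  have ha : ∀ j, ∃ α ∈ S j, a j α ≠ 0 := by
    intro j
    obtain ⟨α, hα, h⟩ := hκ j
    exact ⟨α, hα, mul_ne_zero h (Complex.exp_ne_zero _)⟩
  have h0 : ∀ j, ∑ α ∈ S j, a j α = 0 := fun j => hΛ v hv j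
  obtain ⟨σ, hσ0, hσε, hσ⟩ := GP.sphere_of_sel S L hsel a ha h0 hε
  -- the common zeros
  set g : Ew d → ℝ := fun θ => ∑ j, ‖∑ α ∈ S j, a j α * Complex.exp (∑ i, (α i : ℂ) * L θ i)‖
    with hgdef
  have hgc : Continuous g := by
    rw [hgdef]
    fun_prop
  have hg0 : ∀ θ, (∀ j, ∑ α ∈ S j, a j α * Complex.exp (∑ i, (α i : ℂ) * L θ i) = 0) → g θ = 0 := by
    intro θ h
    rw [hgdef]
    exact Finset.sum_eq_zero fun j _ => by rw [h j, norm_zero]
  have hg1 : ∀ θ, g θ = 0 → ∀ j, ∑ α ∈ S j, a j α * Complex.exp (∑ i, (α i : ℂ) * L θ i) = 0 := by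
    intro θ h j
    have h1 := (Finset.sum_eq_zero_iff_of_nonneg (fun j _ => norm_nonneg _)).1 h j (Finset.mem_univ j)
    exact norm_eq_zero.1 h1
  have hcpt : IsCompact (closedBall (0 : Ew d) (2 * σ) ∩ {θ | g θ = 0}) :=
    (isCompact_closedBall _ _).inter_right (isClosed_eq hgc continuous_const)
  have hne : (closedBall (0 : Ew d) (2 * σ) ∩ {θ | g θ = 0}).Nonempty := by
    refine ⟨0, mem_closedBall_self (by positivity), hg0 0 fun j => ?_⟩
    rw [← h0 j]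
    refine Finset.sum_congr rfl fun α _ => ?_
    simp
  have hcf : Continuous (fun θ : Ew d => |‖θ‖ - σ|) := by fun_prop
  obtain ⟨θ₀, hθ₀, hmin⟩ := hcpt.exists_isMinOn hne hcf.continuousOn
  have hm : 0 < |‖θ₀‖ - σ| := by
    rw [abs_pos]
    intro h
    obtain ⟨j, hj⟩ := hσ θ₀ (by linarith)
    exact hj (hg1 θ₀ hθ₀.2 j)
  set m : ℝ := |‖θ₀‖ - σ| with hmdef
  obtain ⟨τ, hτ0, hτσ, hτm⟩ : ∃ τ : ℝ, 0 < τ ∧ τ < σ ∧ τ < m :=
    ⟨min σ m / 2, by positivity, by linarith [min_le_left σ m, lt_min hσ0 hm],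
      by linarith [min_le_right σ m, lt_min hσ0 hm]⟩
  have key : ∀ θ, g θ = 0 → ‖θ‖ < σ + τ → ‖θ‖ < σ := by
    intro θ hθ hlt
    have h1 : m ≤ |‖θ‖ - σ| := by
      have h2 := hmin (⟨mem_closedBall_zero_iff.2 (by linarith), hθ⟩ :
        θ ∈ closedBall (0 : Ew d) (2 * σ) ∩ {θ | g θ = 0})
      exact h2
    by_contra hcon
    push Not at hcon
    rw [abs_of_nonneg (by linarith)] at h1
    linarith
  obtain ⟨c₀, hc₀, hop⟩ := hopen (τ / 2) (by positivity)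
  -- the number of steps
  obtain ⟨N, hN⟩ := exists_nat_gt (max (2 * ‖ζ' - v.1‖ / τ) (‖L‖ * ‖ζ' - v.1‖ / c₀))
  have hNpos : (0 : ℝ) < N := lt_of_le_of_lt (le_max_of_le_left (by positivity)) hN
  have hN1 : ‖ζ' - v.1‖ / N ≤ τ / 2 := by
    have h1 := (le_max_left _ _).trans_lt hN
    rw [div_lt_iff₀ hτ0] at h1
    rw [div_le_iff₀ hNpos]
    linarith
  have hN2 : ‖L‖ * (‖ζ' - v.1‖ / N) ≤ c₀ := by
    have h1 := (le_max_right _ _).trans_lt hN
    rw [div_lt_iff₀ hc₀] at h1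
    rw [← mul_div_assoc, div_le_iff₀ hNpos]
    linarith
  set ζs : ℕ → Ew d := fun k => v.1 + ((k : ℂ) / N) • (ζ' - v.1) with hζs
  have hdiff : ∀ k, ζs (k + 1) - ζs k = ((1 : ℂ) / N) • (ζ' - v.1) := by
    intro k
    rw [hζs]
    simp only [Nat.cast_add, Nat.cast_one]
    rw [add_sub_add_left_eq_sub, ← sub_smul]
    congr 1
    ring
  have hdn : ∀ k, ‖ζs (k + 1) - ζs k‖ = ‖ζ' - v.1‖ / N := by
    intro k
    rw [hdiff, norm_smul, norm_div, norm_one, Complex.norm_natCast]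
    ring
  have ind : ∀ k : ℕ, ∃ u ∈ Λ, L u.1 - u.2 = L (ζs k) - v.2 ∧ ‖u.1 - ζs k‖ < σ := by
    intro k
    induction k with
    | zero =>
      refine ⟨v, hv, ?_, ?_⟩
      · rw [hζs]
        simp
      · rw [hζs]
        simpa using hσ0
    | succ k ih =>
      obtain ⟨u, hu, hu1, hu2⟩ := ih
      obtain ⟨u', hu', h1, h2⟩ := hop u hu (L (ζs (k + 1)) - v.2) (by
        rw [hu1, sub_sub_sub_cancel_right, ← map_sub]
        refine (L.le_opNorm _).trans ?_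
        rw [hdn]
        exact hN2)
      refine ⟨u', hu', h2, key _ ?_ ?_⟩
      · refine hg0 _ fun j => ?_
        have h3 := hΛ u' hu' j
        have h4 : ∀ i, u'.2 i = v.2 i + L (u'.1 - ζs (k + 1)) i := by
          intro i
          have h5 := congrFun h2 i
          simp only [Pi.sub_apply] at h5
          rw [map_sub, Pi.sub_apply]
          linear_combination -h5
        rw [← h3]
        unfold esum
        refine Finset.sum_congr rfl fun α _ => ?_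
        rw [hadef]
        beta_reduce
        rw [mul_assoc, ← Complex.exp_add, ← Finset.sum_add_distrib]
        congr 2
        refine Finset.sum_congr rfl fun i _ => ?_
        rw [h4 i]
        ring
      · have e1 : u'.1 - ζs (k + 1) = (u'.1 - u.1) + (u.1 - ζs k) - (ζs (k + 1) - ζs k) := by abel
        rw [e1]
        have e2 := norm_sub_le ((u'.1 - u.1) + (u.1 - ζs k)) (ζs (k + 1) - ζs k)
        have e3 := norm_add_le (u'.1 - u.1) (u.1 - ζs k)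
        rw [hdn] at e2
        linarith
  obtain ⟨u, hu, hu1, hu2⟩ := ind N
  have hNζ : ζs N = ζ' := by
    rw [hζs]
    have h1 : (N : ℂ) ≠ 0 := by
      exact_mod_cast hNpos.ne'
    simp only
    rw [div_self h1, one_smul]
    abel
  rw [hNζ] at hu1 hu2
  exact ⟨u, hu, (hu2.trans hσε).le, hu1⟩

end Pool.Agent.Lib.MP_209724_lc.GD
end

section

namespace Pool.Agent.Lib.MP_209724_lc.GD

open MvPolynomial Filter Topology Metric Set
open GS (Ew)

variable {n d : ℕ}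

private theorem gdcnt_zeros {w : ℕ} {ι κ : Type} [Fintype ι] (P : κ → MvPolynomial ι ℂ)
    (ℓ : ι → Ew w →L[ℂ] ℂ) (c : ι → ℂ) :
    (GS.expRing ℓ c).zeros (Ideal.span (Set.range P)) =
      {ξ : Ew w | ∀ i, eval (fun j => c j * Complex.exp (ℓ j ξ)) (P i) = 0} := by
  have hev : ∀ ξ F, (GS.expRing ℓ c).ev ξ F = eval (fun j => c j * Complex.exp (ℓ j ξ)) F := by
    intro ξ F
    change MvPolynomial.aeval (fun j => c j * Complex.exp (ℓ j ξ)) F = _
    rw [MvPolynomial.aeval_eq_eval]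
  ext ξ
  constructor
  · intro h i
    have h1 := h (P i) (Ideal.subset_span ⟨i, rfl⟩)
    rwa [hev] at h1
  · intro h
    have h1 : Ideal.span (Set.range P) ≤ (GS.expRing ℓ c).van {ξ} := by
      rw [Ideal.span_le]
      rintro _ ⟨i, rfl⟩ ξ' hξ'
      rw [Set.mem_singleton_iff] at hξ'
      subst hξ'
      rw [hev]
      exact h i
    intro F hF
    exact h1 hF ξ rfl

/-- **Nondegenerate systems of exponential sums have countably many zeros.** As `GP.sphere_of_sel`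
(`GP/Win.lean`), without the hypothesis that `0` is a zero.

Proof. Copy the proof of `GP.sphere_of_sel`: `E` has a stratification `P` (`GS.exists_strat`), `P = ∅` by
`GP.win_tie` and `GP.win_empty`, so by `IsStrat.disc` every point `x` of `E` has a neighbourhood `U` with
`U ∩ E` countable. `Ew d` is second countable, so `E` is countable
(`TopologicalSpace.countable_cover_nhdsWithin` or the Lindelöf property of `E`). -/
theorem countable_of_sel {J : Type} [Fintype J] (S : J → Finset (Fin n → ℕ))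
    (ℓ : Ew d →L[ℂ] (Fin n → ℂ))
    (hsel : ∀ b : Ew d, ∀ α β : J → Fin n → ℕ, (∀ j, α j ∈ S j ∧ β j ∈ S j ∧ α j ≠ β j) →
      (∀ j, ∑ i, ((α j i : ℂ) - β j i) * ℓ b i = 0) → b = 0)
    (a : J → (Fin n → ℕ) → ℂ) (ha : ∀ j, ∃ α ∈ S j, a j α ≠ 0) :
    {ξ : Ew d | ∀ j, esum (S j) (a j) (ℓ ξ) = 0}.Countable := by
  classical
  obtain ⟨E, hE⟩ : ∃ E : Set (Ew d), E = {ξ : Ew d | ∀ j, esum (S j) (a j) (ℓ ξ) = 0} := ⟨_, rfl⟩
  have hEm : ∀ ξ, ξ ∈ E ↔ ∀ j, ∑ α ∈ S j, a j α *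
      Complex.exp (∑ i, (α i : ℂ) * ℓ ξ i) = 0 := fun ξ => by rw [hE]; rfl
  rw [← hE]
  obtain ⟨P, hP⟩ : ∃ P, GS.IsStrat E P := by
    have h1 := GS.exists_strat (GS.expRing
      (fun p : (Σ j : J, {x // x ∈ S j}) =>
        ∑ i, ((p.2.1 i : ℕ) : ℂ) • ((ContinuousLinearMap.proj i : (Fin n → ℂ) →L[ℂ] ℂ).comp ℓ))
      (fun p => a p.1 p.2.1))
      (Ideal.span (Set.range fun j : J => ∑ α : {x // x ∈ S j},
        (X ⟨j, α⟩ : MvPolynomial (Σ j : J, {x // x ∈ S j}) ℂ)))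
    rw [gdcnt_zeros] at h1
    have h2 : {ξ : Ew d | ∀ i : J, eval (fun p : (Σ j : J, {x // x ∈ S j}) => a p.1 p.2.1 *
        Complex.exp ((∑ i, ((p.2.1 i : ℕ) : ℂ) •
          ((ContinuousLinearMap.proj i : (Fin n → ℂ) →L[ℂ] ℂ).comp ℓ)) ξ))
        (∑ α : {x // x ∈ S i}, (X ⟨i, α⟩ : MvPolynomial (Σ j : J, {x // x ∈ S j}) ℂ)) = 0} = E := by
      ext ξ
      rw [hEm]
      refine forall_congr' fun j => ?_
      rw [map_sum]
      simp only [eval_X]
      rw [← Finset.sum_coe_sort (S j)]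
      have h3 : ∀ α : {x // x ∈ S j}, (∑ i, ((α.1 i : ℕ) : ℂ) •
          ((ContinuousLinearMap.proj i : (Fin n → ℂ) →L[ℂ] ℂ).comp ℓ)) ξ =
          ∑ i, (α.1 i : ℂ) * ℓ ξ i := by
        intro α
        rw [sum_apply]
        exact Finset.sum_congr rfl fun i _ => rfl
      simp only [h3]
    rw [h2] at h1
    exact h1
  obtain ⟨C, hC⟩ := GP.win_tie S ℓ a ha
  have hPe : P = ∅ := by
    refine GP.win_empty (fun j => (S j).filter (fun γ => a j γ ≠ 0)) ℓ ?_ P C ?_ hP.esc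
    · intro b α β h1 h2
      refine hsel b α β (fun j => ?_) h2
      obtain ⟨h3, h4, h5⟩ := h1 j
      exact ⟨(Finset.mem_filter.1 h3).1, (Finset.mem_filter.1 h4).1, h5⟩
    · intro ζ hζ j
      obtain ⟨α, hα, β, hβ, hne, hα0, hβ0, h⟩ := hC ζ ((hEm ζ).1 (hP.sub hζ)) j
      refine ⟨α, Finset.mem_filter.2 ⟨hα, hα0⟩, β, Finset.mem_filter.2 ⟨hβ, hβ0⟩, hne, ?_⟩
      intro γ hγ
      exact h γ (Finset.mem_filter.1 hγ).1 (Finset.mem_filter.1 hγ).2
  have hloc : ∀ x ∈ E, ∃ U ∈ 𝓝 x, (U ∩ E).Countable := fun x hx =>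
    hP.disc x hx (by rw [hPe]; exact notMem_empty _)
  choose! U hU hUc using hloc
  obtain ⟨T, hTE, hTc, hcov⟩ := TopologicalSpace.countable_cover_nhdsWithin
    (s := E) (f := U) (fun x hx => mem_nhdsWithin_of_mem_nhds (hU x hx))
  have h1 : (⋃ x ∈ T, (U x ∩ E)).Countable := hTc.biUnion fun x hx => hUc x (hTE hx)
  refine h1.mono fun x hx => ?_
  obtain ⟨y, hy, hxy⟩ := mem_iUnion₂.1 (hcov hx)
  exact mem_iUnion₂.2 ⟨y, hy, hxy, hx⟩

end Pool.Agent.Lib.MP_209724_lc.GD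
end

section

/-!
# Holomorphic families of points of a variety near a point of its asymptotic cone
-/

namespace Pool.Agent.Lib.MP_209724_lc.GS

open MvPolynomial Filter Topology Metric Set
open GC (prj cone)
open MV (lead)

/-- `GC.exists_cover` with the polynomial `b` given by its property `hsh` (see its proof: there `b`
comes from `MV.exists_sheets`; the rest of the proof can be copied). -/
theorem cover_explicit {n d : ℕ} {L : Type} [Field L] [Algebra ℂ L] (ξ : Fin n → L)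
    (Z : Fin d → Fin n → ℂ) (ζ : Fin d → L)
    (hζ : ∀ j, ζ j = ∑ i, algebraMap ℂ L (Z j i) * ξ i) (hind : AlgebraicIndependent ℂ ζ)
    (hξ : ∀ i, ξ i ∈ Algebra.adjoin ℂ (Set.range ξ))
    (hζA : ∀ j, ζ j ∈ Algebra.adjoin ℂ (Set.range ξ))
    (b : MvPolynomial (Fin d) ℂ) (hb : b ≠ 0)
    (hsh : ∀ (E : Type) [NormedAddCommGroup E] [NormedSpace ℂ E] [FiniteDimensional ℂ E]
        (D : Set E), IsOpen D → Convex ℝ D → ∀ Z : E → Fin d → ℂ,
        (∀ i, AnalyticOnNhd ℂ (fun p => Z p i) D) →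
        (∀ p ∈ D, MvPolynomial.eval (Z p) b ≠ 0) → ∀ p₀ ∈ D,
        ∀ φ₀ : Algebra.adjoin ℂ (Set.range ξ) →ₐ[ℂ] ℂ,
        (∀ i, φ₀ ⟨ζ i, hζA i⟩ = Z p₀ i) →
        ∃ Φ : E → (Algebra.adjoin ℂ (Set.range ξ) →ₐ[ℂ] ℂ), Φ p₀ = φ₀ ∧
          (∀ p ∈ D, ∀ i, Φ p ⟨ζ i, hζA i⟩ = Z p i) ∧
          ∀ x : Algebra.adjoin ℂ (Set.range ξ), DifferentiableOn ℂ (fun p => Φ p x) D)
    (w : Fin n → ℂ) (H : (Fin d → ℂ) → Fin n → ℂ) {ρ r₀ : ℝ} (hρ : 0 < ρ) (hr₀ : 0 < r₀)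
    (hHw : ∀ z ∈ ball (prj Z w) ρ, ‖H z - w‖ < r₀ / 2)
    (hclose : ∀ ε : ℝ, 0 < ε → ∀ᶠ r : ℝ in atTop, ∀ x : Fin n → ℂ,
      (∀ f : MvPolynomial (Fin n) ℂ, aeval ξ f = 0 → eval x f = 0) →
      ‖(fun i => x i / (r : ℂ)) - w‖ ≤ r₀ →
      ‖(fun i => x i / (r : ℂ)) - H (prj Z fun i => x i / (r : ℂ))‖ < ε)
    (r : ℕ → ℝ) (hr : Tendsto r atTop atTop) (x : ℕ → Fin n → ℂ)
    (hx : ∀ N, ∀ f : MvPolynomial (Fin n) ℂ, aeval ξ f = 0 → eval (x N) f = 0)
    (hxw : Tendsto (fun N i => x N i / (r N : ℂ)) atTop (𝓝 w)) :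
    ∀ᶠ N : ℕ in atTop, ∀ z ∈ ball (prj Z w) ρ,
      eval (fun j => (r N : ℂ) * z j) b ≠ 0 → ∃ x' : Fin n → ℂ,
        (∀ f : MvPolynomial (Fin n) ℂ, aeval ξ f = 0 → eval x' f = 0) ∧
        (∀ j, prj Z x' j = (r N : ℂ) * z j) ∧ ‖(fun i => x' i / (r N : ℂ)) - w‖ ≤ r₀ := by
  classical
  have hζ' : ∀ j, (⟨ζ j, hζA j⟩ : Algebra.adjoin ℂ (Set.range ξ)) =
      ∑ i, algebraMap ℂ _ (Z j i) * ⟨ξ i, hξ i⟩ := by
    intro j
    apply Subtype.ext
    simp only [hζ j]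
    rw [AddSubmonoidClass.coe_finsetSum]
    rfl
  have hFG : (Algebra.adjoin ℂ (Set.range ξ)).FG :=
    ⟨(Set.finite_range ξ).toFinset, by simp⟩
  have hb0 := hb
  have hcmem : aeval ζ b ∈ Algebra.adjoin ℂ (Set.range ξ) := by
    have h1 : aeval ζ b ∈ Algebra.adjoin ℂ (Set.range ζ) := by
      rw [Algebra.adjoin_range_eq_range_aeval]
      exact ⟨b, rfl⟩
    refine Algebra.adjoin_le ?_ h1
    rintro _ ⟨i, rfl⟩
    exact hζA i
  have hc0 : (⟨aeval ζ b, hcmem⟩ : Algebra.adjoin ℂ (Set.range ξ)) ≠ 0 := by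
    intro h
    have h1 : aeval ζ b = 0 := congrArg Subtype.val h
    exact hb0 ((algebraicIndependent_iff.mp hind) b h1)
  have hnear : ∀ᶠ N : ℕ in atTop, ‖(fun i => x N i / (r N : ℂ)) - w‖ < r₀ ∧
      prj Z (fun i => x N i / (r N : ℂ)) ∈ ball (prj Z w) ρ := by
    have h1 : ∀ᶠ y in 𝓝 w, ‖y - w‖ < r₀ ∧ prj Z y ∈ ball (prj Z w) ρ := by
      apply Filter.Eventually.and
      · have := ball_mem_nhds w hr₀
        filter_upwards [this] with y hy
        rwa [mem_ball_iff_norm] at hy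
      · exact (GC.continuous_prj Z).continuousAt.eventually (ball_mem_nhds _ hρ)
    exact hxw.eventually h1
  filter_upwards [hnear, hr.eventually (hclose (r₀ / 4) (by positivity)),
    hr.eventually_gt_atTop 0] with N hN1 hN2 hR
  set R := r N with hRdef
  have hR0 : (R : ℂ) ≠ 0 := by exact_mod_cast hR.ne'
  -- coordinates of homs
  have hφζ : ∀ (φ : Algebra.adjoin ℂ (Set.range ξ) →ₐ[ℂ] ℂ) (j : Fin d),
      φ ⟨ζ j, hζA j⟩ = prj Z (fun i => φ ⟨ξ i, hξ i⟩) j := by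
    intro φ j
    rw [hζ' j, map_sum]
    unfold prj
    refine Finset.sum_congr rfl fun i _ => ?_
    rw [map_mul, AlgHom.commutes]
    rfl
  have hprjdiv : ∀ (y : Fin n → ℂ) (j : Fin d),
      prj Z (fun i => y i / (R : ℂ)) j = prj Z y j / R := by
    intro y j
    unfold prj
    rw [Finset.sum_div]
    exact Finset.sum_congr rfl fun i _ => by ring
  have hstep : ∀ φ : Algebra.adjoin ℂ (Set.range ξ) →ₐ[ℂ] ℂ,
      ∀ z ∈ ball (prj Z w) ρ, (∀ j, φ ⟨ζ j, hζA j⟩ = (R : ℂ) * z j) →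
      ‖(fun i => φ ⟨ξ i, hξ i⟩ / (R : ℂ)) - w‖ ≤ r₀ →
      ‖(fun i => φ ⟨ξ i, hξ i⟩ / (R : ℂ)) - w‖ < 3 * r₀ / 4 := by
    intro φ z hz hφz hφ
    have h1 := hN2 (fun i => φ ⟨ξ i, hξ i⟩) (GC.cover_point_of_hom ξ hξ φ) hφ
    have h2 : (prj Z fun i => φ ⟨ξ i, hξ i⟩ / (R : ℂ)) = z := by
      funext j
      rw [hprjdiv (fun i => φ ⟨ξ i, hξ i⟩) j, ← hφζ, hφz j, mul_div_cancel_left₀ _ hR0]
    rw [h2] at h1
    have h3 := hHw z hz
    have h4 : ‖(fun i => φ ⟨ξ i, hξ i⟩ / (R : ℂ)) - w‖ ≤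
        ‖(fun i => φ ⟨ξ i, hξ i⟩ / (R : ℂ)) - H z‖ + ‖H z - w‖ := by
      have := norm_add_le ((fun i => φ ⟨ξ i, hξ i⟩ / (R : ℂ)) - H z) (H z - w)
      rwa [sub_add_sub_cancel] at this
    linarith
  -- the start
  obtain ⟨φ₀, hφ₀⟩ := GC.cover_hom_of_point ξ (x N) (hx N) hξ
  have hUo : IsOpen {y : Fin n → ℂ | ‖(fun i => y i / (R : ℂ)) - w‖ < r₀ ∧
      prj Z (fun i => y i / (R : ℂ)) ∈ ball (prj Z w) ρ} := by
    have h1 : Continuous fun y : Fin n → ℂ => (fun i => y i / (R : ℂ)) := by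
      apply continuous_pi
      intro i
      exact (continuous_apply i).div_const _
    apply IsOpen.inter
    · exact isOpen_lt (h1.sub continuous_const).norm continuous_const
    · exact isOpen_ball.preimage ((GC.continuous_prj Z).comp h1)
  obtain ⟨ε, hε, hεU⟩ := Metric.isOpen_iff.mp hUo (x N) hN1
  obtain ⟨φ₁, hφ₁c, hφ₁⟩ := GC.exists_near _ hFG φ₀ _ hc0
    (Finset.univ.image fun i => (⟨ξ i, hξ i⟩ : Algebra.adjoin ℂ (Set.range ξ))) hε
  have hφ₁U := hεU (show (fun i => φ₁ ⟨ξ i, hξ i⟩) ∈ ball (x N) ε by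
    rw [mem_ball, dist_pi_lt_iff hε]
    intro i
    rw [dist_eq_norm, ← hφ₀ i]
    exact hφ₁ _ (Finset.mem_image_of_mem _ (Finset.mem_univ i)))
  obtain ⟨hφ₁r, hφ₁b⟩ := hφ₁U
  set z₁ : Fin d → ℂ := prj Z (fun i => φ₁ ⟨ξ i, hξ i⟩ / (R : ℂ)) with hz₁
  have hφ₁z : ∀ j, φ₁ ⟨ζ j, hζA j⟩ = (R : ℂ) * z₁ j := by
    intro j
    rw [hφζ, hz₁, hprjdiv (fun i => φ₁ ⟨ξ i, hξ i⟩) j, mul_div_cancel₀ _ hR0]
  have hbz₁ : eval (fun j => (R : ℂ) * z₁ j) b ≠ 0 := by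
    have h1 : eval (fun j => (R : ℂ) * z₁ j) b = φ₁ ⟨aeval ζ b, hcmem⟩ := by
      have h2 : (fun j => (R : ℂ) * z₁ j) = fun j => φ₁ ⟨ζ j, hζA j⟩ :=
        funext fun j => (hφ₁z j).symm
      rw [h2, ← MvPolynomial.aeval_eq_eval, ← MvPolynomial.comp_aeval_apply]
      congr 1
      apply Subtype.ext
      have h1 := MvPolynomial.comp_aeval_apply
        (fun i => (⟨ζ i, hζA i⟩ : Algebra.adjoin ℂ (Set.range ξ)))
        (Algebra.adjoin ℂ (Set.range ξ)).val b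
      simp only [Subalgebra.coe_val] at h1
      exact h1
    rw [h1]
    exact hφ₁c
  intro z hz hbz
  -- the polynomial on the complex line
  obtain ⟨q, hq⟩ : ∃ q : Polynomial ℂ, ∀ s : ℂ,
      q.eval s = eval (fun j => (R : ℂ) * (z₁ j + s * (z j - z₁ j))) b := by
    refine ⟨aeval (fun j => Polynomial.C ((R : ℂ) * z₁ j) +
      Polynomial.X * Polynomial.C ((R : ℂ) * (z j - z₁ j))) b, fun s => ?_⟩
    have h1 := MvPolynomial.comp_aeval_apply (fun j => Polynomial.C ((R : ℂ) * z₁ j) +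
      Polynomial.X * Polynomial.C ((R : ℂ) * (z j - z₁ j))) (Polynomial.aeval s : Polynomial ℂ →ₐ[ℂ] ℂ) b
    rw [Polynomial.coe_aeval_eq_eval] at h1
    rw [h1, MvPolynomial.aeval_eq_eval]
    congr 2
    funext j
    simp
    ring
  have hq0 : q ≠ 0 := by
    intro h
    have h1 := hq 0
    rw [h, Polynomial.eval_zero] at h1
    apply hbz₁
    rw [h1]
    congr 2
    funext j
    ring
  have hq1 : q.eval 0 ≠ 0 := by
    rw [hq 0]
    simpa using hbz₁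
  have hq2 : q.eval 1 ≠ 0 := by
    rw [hq 1]
    simpa using hbz
  -- choice of the intermediate point
  have hτ : ∀ᶠ τ : ℝ in 𝓝 0, z₁ + ((1 / 2 : ℂ) + τ * Complex.I) • (z - z₁) ∈
      ball (prj Z w) ρ := by
    have h1 : Continuous fun τ : ℝ => z₁ + ((1 / 2 : ℂ) + τ * Complex.I) • (z - z₁) := by
      fun_prop
    apply h1.continuousAt.eventually
    apply isOpen_ball.mem_nhds
    have h2 := (convex_ball (prj Z w) ρ) hφ₁b hz (show (0 : ℝ) ≤ 1 / 2 by norm_num)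
      (show (0 : ℝ) ≤ 1 / 2 by norm_num) (by norm_num)
    convert h2 using 1
    funext j
    simp
    ring
  obtain ⟨τ₀, hτ₀, hτ₀'⟩ := Metric.eventually_nhds_iff.mp hτ
  set B : Finset ℝ := q.roots.toFinset.image (fun s => s.im / (2 * s.re)) ∪
    q.roots.toFinset.image (fun s => s.im / (2 * (1 - s.re))) with hB
  obtain ⟨τ, hτ1, hτ2⟩ := (Set.Ioo_infinite hτ₀).exists_notMem_finset B
  have hτball := hτ₀' (y := τ) (by
    rw [Real.dist_eq, sub_zero, abs_of_pos hτ1.1]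
    exact hτ1.2)
  set s : ℂ := (1 / 2 : ℂ) + τ * Complex.I with hs
  have hsre : s.re = 1 / 2 := by simp [hs]
  have hsim : s.im = τ := by simp [hs]
  rw [hB, Finset.mem_union, not_or] at hτ2
  have hroot1 : ∀ l : ℝ, 0 ≤ l → l ≤ 1 → q.eval (l * s) ≠ 0 := by
    intro l hl0 hl1 h
    apply hτ2.1
    rw [Finset.mem_image]
    refine ⟨l * s, ?_, ?_⟩
    · rw [Multiset.mem_toFinset, Polynomial.mem_roots hq0]
      exact h
    · have hl : l ≠ 0 := by
        rintro rfl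
        apply hq1
        simpa using h
      simp only [Complex.mul_re, Complex.mul_im, Complex.ofReal_re, Complex.ofReal_im, hsre, hsim]
      rw [show 2 * (l * (1 / 2) - 0 * τ) = l by ring, show l * τ + 0 * (1 / 2) = l * τ by ring,
        mul_div_cancel_left₀ _ hl]
  have hroot2 : ∀ l : ℝ, 0 ≤ l → l ≤ 1 → q.eval (1 - l * (1 - s)) ≠ 0 := by
    intro l hl0 hl1 h
    apply hτ2.2
    rw [Finset.mem_image]
    refine ⟨1 - l * (1 - s), ?_, ?_⟩
    · rw [Multiset.mem_toFinset, Polynomial.mem_roots hq0]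
      exact h
    · have hl : l ≠ 0 := by
        rintro rfl
        apply hq2
        simpa using h
      simp only [Complex.mul_re, Complex.mul_im, Complex.ofReal_re, Complex.ofReal_im,
        Complex.sub_re, Complex.sub_im, Complex.one_re, Complex.one_im, hsre, hsim]
      rw [show 2 * (1 - (1 - (l * (1 - 1 / 2) - 0 * (0 - τ)))) = l by ring,
        show 0 - (l * (0 - τ) + 0 * (1 - 1 / 2)) = l * τ by ring, mul_div_cancel_left₀ _ hl]
  set z' : Fin d → ℂ := z₁ + s • (z - z₁) with hz'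
  obtain ⟨φ₂, hφ₂z, hφ₂r⟩ := GC.cover_transport ξ Z ζ hξ hζA b hsh w hr₀ hstep z₁ z'
    (by
      intro y hy
      refine ⟨(convex_ball _ _).segment_subset hφ₁b hτball hy, ?_⟩
      rw [segment_eq_image] at hy
      obtain ⟨l, hl, rfl⟩ := hy
      have := hroot1 l hl.1 hl.2
      rw [hq] at this
      convert this using 3
      funext j
      simp only [hz', Pi.add_apply, Pi.smul_apply, Pi.sub_apply, smul_eq_mul, Complex.real_smul,
        Complex.ofReal_sub, Complex.ofReal_one]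
      ring) φ₁ hφ₁z hφ₁r.le
  obtain ⟨φ₃, hφ₃z, hφ₃r⟩ := GC.cover_transport ξ Z ζ hξ hζA b hsh w hr₀ hstep z' z
    (by
      intro y hy
      refine ⟨(convex_ball _ _).segment_subset hτball hz hy, ?_⟩
      rw [segment_eq_image] at hy
      obtain ⟨l, hl, rfl⟩ := hy
      have := hroot2 (1 - l) (by linarith [hl.2]) (by linarith [hl.1])
      rw [hq] at this
      convert this using 3
      funext j
      simp only [hz', Pi.add_apply, Pi.smul_apply, Pi.sub_apply, smul_eq_mul, Complex.real_smul,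
        Complex.ofReal_sub, Complex.ofReal_one]
      ring) φ₂ hφ₂z hφ₂r
  refine ⟨fun i => φ₃ ⟨ξ i, hξ i⟩, GC.cover_point_of_hom ξ hξ φ₃, ?_, hφ₃r⟩
  intro j
  rw [← hφζ, hφ₃z]

/-- multiples of an element which are polynomials in `ζ` -/
private theorem sheet_beta {d : ℕ} {L : Type} [Field L] [Algebra ℂ L] (ζ : Fin d → L)
    (B : Subalgebra ℂ L) (hζB : ∀ j, ζ j ∈ B)
    (halg : ∀ y ∈ B, IsAlgebraic (Algebra.adjoin ℂ (Set.range ζ)) y) (b : B) (hb : b ≠ 0) :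
    ∃ β : MvPolynomial (Fin d) ℂ, β ≠ 0 ∧ b ∣ aeval (fun j => (⟨ζ j, hζB j⟩ : B)) β := by
  set R := Algebra.adjoin ℂ (Set.range ζ) with hR
  have hRB : R ≤ B := by
    apply Algebra.adjoin_le
    rintro _ ⟨j, rfl⟩
    exact hζB j
  let algB : Algebra R B := (Subalgebra.inclusion hRB).toRingHom.toAlgebra
  have hbalg : IsAlgebraic R b := by
    refine (halg b b.2).of_ringHom_of_comp_eq (RingHom.id R) (B.val : B →+* L)
      Function.surjective_id Subtype.val_injective ?_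
    ext r
    rfl
  obtain ⟨r, hr, hdvd⟩ := hbalg.exists_nonzero_dvd (mem_nonZeroDivisors_of_ne_zero hb)
  have h1 : (r : L) ∈ (aeval ζ : MvPolynomial (Fin d) ℂ →ₐ[ℂ] L).range := by
    rw [← Algebra.adjoin_range_eq_range_aeval]
    exact r.2
  obtain ⟨β', hβ'⟩ := h1
  have h2 : aeval (fun j => (⟨ζ j, hζB j⟩ : B)) β' = algebraMap R B r := by
    apply Subtype.val_injective
    have h3 := MvPolynomial.comp_aeval_apply (fun j => (⟨ζ j, hζB j⟩ : B)) B.val β'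
    simp only [Subalgebra.coe_val] at h3
    exact h3.trans hβ'
  refine ⟨β', ?_, by rw [h2]; exact hdvd⟩
  intro h0
  rw [h0, map_zero] at h2
  apply hr
  apply Subalgebra.inclusion_injective hRB
  rw [map_zero]
  exact h2.symm

/-- no zeros near the cone of a point where the leading form does not vanish -/
private theorem sheet_lower {τ : Type} [Fintype τ] (c : MvPolynomial τ ℂ) {D : Set (τ → ℂ)}
    (hD : IsCompact D) (hc : ∀ w ∈ D, eval w (lead c) ≠ 0) :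
    ∀ᶠ r : ℝ in atTop, ∀ v ∈ D, eval (fun j => (r : ℂ) * v j) c ≠ 0 := by
  set d := c.totalDegree with hd
  have hcont := MV.continuous_asymResc c d
  have hopen : IsOpen {p : ℂ × (τ → ℂ) | MV.asymResc c d p.1 p.2 ≠ 0} :=
    isOpen_ne.preimage hcont
  obtain ⟨u, v, hu, hv, h0u, hDv, huv⟩ := generalized_tube_lemma (s := ({0} : Set ℂ))
    isCompact_singleton hD hopen (by
      rintro ⟨z, w⟩ ⟨hz, hw⟩
      rw [Set.mem_singleton_iff] at hz
      simp only at hz hw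
      subst hz
      show MV.asymResc c d 0 w ≠ 0
      rw [MV.asymResc_zero]
      exact hc w hw)
  obtain ⟨r, hr, hru⟩ := Metric.nhds_basis_closedBall.mem_iff.1
    (hu.mem_nhds (h0u (Set.mem_singleton (0 : ℂ))))
  filter_upwards [eventually_ge_atTop 1, eventually_ge_atTop r⁻¹] with N hN1 hN2 w hw
  have hN0' : (0 : ℝ) < N := by linarith
  have hN0 : (N : ℂ) ≠ 0 := by
    rw [Ne, Complex.ofReal_eq_zero]; exact hN0'.ne'
  rw [MV.eval_eq_asymResc c hd.symm hN0]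
  have h1 : MV.asymResc c d (N : ℂ)⁻¹ w ≠ 0 := by
    have h2 : ((N : ℂ)⁻¹, w) ∈ u ×ˢ v := by
      refine ⟨hru ?_, hDv hw⟩
      rw [mem_closedBall_zero_iff, norm_inv, Complex.norm_real, Real.norm_eq_abs, abs_of_pos hN0']
      exact inv_le_of_inv_le₀ hr hN2
    exact huv h2
  exact mul_ne_zero (pow_ne_zero _ hN0) h1

/-- **Families of points.** `p` is the ideal of relations of `ξ`. There is a polynomial `β ≠ 0` in `d`
variables, depending only on `ξ, Z, g`, such that for every point `w` of the asymptotic cone with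
`lead β` nonzero at `prj Z w` and every chart `H` of the cone at `w` there are a ball around `prj Z w`,
a sequence `r_ν → ∞` and holomorphic `X_ν` on this ball with `r_ν X_ν(z)` a zero of `p` and not of
`g`, `prj Z (X_ν z) = z`, and `X_ν → H` uniformly.

Proof. `β = b * β'` with `b` from `MV.exists_sheets` for `A = Algebra.adjoin ℂ (Set.range ξ)` and
`ζ`, and `β' ≠ 0` such that `aeval ζ β' = aeval ξ g * a` for some `a ∈ A` (`aeval ξ g ≠ 0` is
algebraic over `ℂ[ζ]`: `IsAlgebraic.exists_nonzero_dvd`, compare `gc_good_beta` in `GC/Good.lean`).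
Given `w`, choose `0 < ρ' ≤ ρ` (say `ρ' < ρ`) such that `lead β = lead b * lead β'` (or use that
`lead` is multiplicative or apply the following to `β` itself) has no zero on the closed ball
`closedBall (prj Z w) ρ'`; then, for `r` large, `β(r z) ≠ 0` on this closed ball (uniformly in `z`:
`GC.as_lower` in `GC/Asym.lean` is private, but it follows from `GC.lower_bound` with `k = 0` as in
`GC.eventually_eval_ne_zero`, which is the case of one point). Let `r_N → ∞`, `x_N` be a sequence with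
`x_N / r_N → w` (`w ∈ cone p`). By `cover_explicit` at the point `z = prj Z w` there is, for `N` large,
a zero `x'` of `p` with `prj Z x' = r_N (prj Z w)` and `‖x'/r_N - w‖ ≤ r₀`; it defines a homomorphism
`φ₀ : A → ℂ` (`GC.cover_hom_of_point`). By `hsh` for `D = ball (prj Z w) ρ'` and
`z ↦ r_N z` there are `Φ_z` on `D` with `Φ_{prj Z w} = φ₀`; put `X_N(z) = (Φ_z(ξ i) / r_N)_i`. For
`N` large `‖X_N(z) - w‖ < r₀` on `D`: the norm is continuous in `z`, `D` is connected, the norm is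
`≤ r₀` at the center, and where it is `≤ r₀` it is `< 3 r₀ / 4` by `hclose` (`ε = r₀/4`) and `hHw`
(this is the argument in the proof of `GC.cover_transport`). Then `hclose` gives the convergence to
`H (prj Z (X_N z)) = H z`. `g(r_N X_N(z)) ≠ 0` as `β'(r_N z) ≠ 0`. Finally drop the first terms of
the sequence, so that everything holds for all `ν`. -/
theorem exists_family {n d : ℕ} (p : Ideal (MvPolynomial (Fin n) ℂ)) {L : Type} [Field L]
    [Algebra ℂ L] (ξ : Fin n → L) (hp : ∀ c, c ∈ p ↔ aeval ξ c = 0)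
    (Z : Fin d → Fin n → ℂ) (ζ : Fin d → L)
    (hζ : ∀ j, ζ j = ∑ i, algebraMap ℂ L (Z j i) * ξ i) (hind : AlgebraicIndependent ℂ ζ)
    (halg : ∀ i, IsAlgebraic (Algebra.adjoin ℂ (Set.range ζ)) (ξ i))
    (g : MvPolynomial (Fin n) ℂ) (hg : g ∉ p) :
    ∃ β : MvPolynomial (Fin d) ℂ, β ≠ 0 ∧ ∀ w ∈ cone p, eval (prj Z w) (lead β) ≠ 0 →
      ∀ (H : (Fin d → ℂ) → Fin n → ℂ) (ρ r₀ : ℝ), 0 < ρ → 0 < r₀ →
      (∀ z ∈ ball (prj Z w) ρ, ‖H z - w‖ < r₀ / 2) →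
      (∀ ε : ℝ, 0 < ε → ∀ᶠ r : ℝ in atTop, ∀ x : Fin n → ℂ, (∀ f ∈ p, eval x f = 0) →
        ‖(fun i => x i / (r : ℂ)) - w‖ ≤ r₀ →
        ‖(fun i => x i / (r : ℂ)) - H (prj Z fun i => x i / (r : ℂ))‖ < ε) →
      ∃ (ρ' : ℝ) (r : ℕ → ℝ) (X : ℕ → (Fin d → ℂ) → Fin n → ℂ), 0 < ρ' ∧ ρ' ≤ ρ ∧
        (∀ ν, 0 < r ν) ∧ Tendsto r atTop atTop ∧
        (∀ ν, DifferentiableOn ℂ (X ν) (ball (prj Z w) ρ')) ∧
        (∀ ν, ∀ z ∈ ball (prj Z w) ρ', (∀ f ∈ p, eval (fun i => (r ν : ℂ) * X ν z i) f = 0) ∧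
          eval (fun i => (r ν : ℂ) * X ν z i) g ≠ 0 ∧ prj Z (X ν z) = z) ∧
        ∀ ε : ℝ, 0 < ε → ∀ᶠ ν in atTop, ∀ z ∈ ball (prj Z w) ρ', ‖X ν z - H z‖ ≤ ε := by
  classical
  have hξ : ∀ i, ξ i ∈ Algebra.adjoin ℂ (Set.range ξ) := fun i =>
    Algebra.subset_adjoin ⟨i, rfl⟩
  have hζA : ∀ j, ζ j ∈ Algebra.adjoin ℂ (Set.range ξ) := by
    intro j
    rw [hζ j]
    exact Subalgebra.sum_mem _ fun i _ => Subalgebra.mul_mem _ (Subalgebra.algebraMap_mem _ _) (hξ i)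
  have hζ' : ∀ j, (⟨ζ j, hζA j⟩ : Algebra.adjoin ℂ (Set.range ξ)) =
      ∑ i, algebraMap ℂ _ (Z j i) * ⟨ξ i, hξ i⟩ := by
    intro j
    apply Subtype.ext
    simp only [hζ j]
    rw [AddSubmonoidClass.coe_finsetSum]
    rfl
  have hFG : (Algebra.adjoin ℂ (Set.range ξ)).FG :=
    ⟨(Set.finite_range ξ).toFinset, by simp⟩
  have halgA : ∀ y ∈ Algebra.adjoin ℂ (Set.range ξ),
      IsAlgebraic (Algebra.adjoin ℂ (Set.range ζ)) y := by
    intro y hy
    induction hy using Algebra.adjoin_induction with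
    | mem y hy => obtain ⟨i, rfl⟩ := hy; exact halg i
    | algebraMap c =>
      have : algebraMap ℂ L c = algebraMap (Algebra.adjoin ℂ (Set.range ζ)) L
          (algebraMap ℂ _ c) := rfl
      rw [this]
      exact isAlgebraic_algebraMap _
    | add a b _ _ ha hb => exact ha.add hb
    | mul a b _ _ ha hb => exact ha.mul hb
  obtain ⟨b, hb0, hsh⟩ := MV.exists_sheets ζ hind _ hFG hζA halgA
  have hgA : aeval ξ g ∈ Algebra.adjoin ℂ (Set.range ξ) := by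
    rw [Algebra.adjoin_range_eq_range_aeval]
    exact ⟨g, rfl⟩
  obtain ⟨β', hβ'0, gc, hgc⟩ := sheet_beta ζ (Algebra.adjoin ℂ (Set.range ξ)) hζA halgA
    ⟨aeval ξ g, hgA⟩ (by
      intro h0
      exact hg ((hp g).2 (congrArg Subtype.val h0)))
  refine ⟨b * β', mul_ne_zero hb0 hβ'0, ?_⟩
  intro w hw hβw H ρ r₀ hρ hr₀ hHw hclose
  -- the ball
  have hopen : {v : Fin d → ℂ | eval v (lead (b * β')) ≠ 0} ∈ 𝓝 (prj Z w) :=
    (MvPolynomial.continuous_eval _).continuousAt.eventually_ne hβw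
  obtain ⟨ρ₁, hρ₁, hρ₁B⟩ := Metric.nhds_basis_closedBall.mem_iff.mp hopen
  set ρ' : ℝ := min ρ ρ₁ with hρ'
  have hρ'0 : 0 < ρ' := lt_min hρ hρ₁
  have hρ'ρ : ρ' ≤ ρ := min_le_left _ _
  have hlow := sheet_lower (b * β') (isCompact_closedBall (prj Z w) ρ₁) (fun v hv => hρ₁B hv)
  obtain ⟨r, x, hr, hx, hxw⟩ := hw
  have hclose' : ∀ ε : ℝ, 0 < ε → ∀ᶠ r : ℝ in atTop, ∀ x : Fin n → ℂ,
      (∀ f : MvPolynomial (Fin n) ℂ, aeval ξ f = 0 → eval x f = 0) →
      ‖(fun i => x i / (r : ℂ)) - w‖ ≤ r₀ →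
      ‖(fun i => x i / (r : ℂ)) - H (prj Z fun i => x i / (r : ℂ))‖ < ε := by
    intro ε hε
    filter_upwards [hclose ε hε] with r hr1 x hx1 hx2
    exact hr1 x (fun f hf => hx1 f ((hp f).1 hf)) hx2
  have hcover := cover_explicit ξ Z ζ hζ hind hξ hζA b hb0 hsh w H hρ hr₀ hHw hclose' r hr x
    (fun N f hf => hx N f ((hp f).2 hf))
    (by
      refine hxw.congr fun N => ?_
      funext i
      rw [Pi.smul_apply, Complex.real_smul, Complex.ofReal_inv, div_eq_inv_mul])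
  -- coordinates of homs
  have hφζ : ∀ (φ : Algebra.adjoin ℂ (Set.range ξ) →ₐ[ℂ] ℂ) (j : Fin d),
      φ ⟨ζ j, hζA j⟩ = prj Z (fun i => φ ⟨ξ i, hξ i⟩) j := by
    intro φ j
    rw [hζ' j, map_sum]
    unfold prj
    refine Finset.sum_congr rfl fun i _ => ?_
    rw [map_mul, AlgHom.commutes]
    rfl
  have hprjdiv : ∀ (R : ℝ) (y : Fin n → ℂ) (j : Fin d),
      prj Z (fun i => y i / (R : ℂ)) j = prj Z y j / R := by
    intro R y j
    unfold prj
    rw [Finset.sum_div]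
    exact Finset.sum_congr rfl fun i _ => by ring
  have hD : ball (prj Z w) ρ' ⊆ closedBall (prj Z w) ρ₁ :=
    ball_subset_closedBall.trans (closedBall_subset_closedBall (min_le_right _ _))
  have hev : ∀ᶠ N : ℕ in atTop, 0 < r N ∧ (∀ z ∈ ball (prj Z w) ρ',
      eval (fun j => (r N : ℂ) * z j) (b * β') ≠ 0) ∧
      ∃ Φ : (Fin d → ℂ) → (Algebra.adjoin ℂ (Set.range ξ) →ₐ[ℂ] ℂ),
        (∀ z ∈ ball (prj Z w) ρ', ∀ j, Φ z ⟨ζ j, hζA j⟩ = (r N : ℂ) * z j) ∧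
        (∀ y : Algebra.adjoin ℂ (Set.range ξ), DifferentiableOn ℂ (fun z => Φ z y)
          (ball (prj Z w) ρ')) ∧
        ∀ z ∈ ball (prj Z w) ρ', ‖(fun i => Φ z ⟨ξ i, hξ i⟩ / (r N : ℂ)) - w‖ ≤ r₀ := by
    filter_upwards [hcover, hr.eventually hlow, hr.eventually_gt_atTop 0,
      hr.eventually (hclose' (r₀ / 4) (by positivity))] with N hN1 hN2 hR hN3
    set R := r N with hRdef
    have hR0 : (R : ℂ) ≠ 0 := by exact_mod_cast hR.ne'
    refine ⟨hR, fun z hz => hN2 z (hD hz), ?_⟩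
    have hbne : ∀ z ∈ ball (prj Z w) ρ', eval (fun j => (R : ℂ) * z j) b ≠ 0 := by
      intro z hz h0
      apply hN2 z (hD hz)
      rw [map_mul, h0, zero_mul]
    have hc : prj Z w ∈ ball (prj Z w) ρ' := mem_ball_self hρ'0
    obtain ⟨x', hx'1, hx'2, hx'3⟩ := hN1 (prj Z w) (mem_ball_self hρ) (hbne _ hc)
    obtain ⟨φ₀, hφ₀⟩ := GC.cover_hom_of_point ξ x' hx'1 hξ
    obtain ⟨Φ, hΦ0, hΦ1, hΦ2⟩ := hsh (Fin d → ℂ) (ball (prj Z w) ρ') isOpen_ball
      (convex_ball _ _) (fun z j => (R : ℂ) * z j)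
      (fun i => by
        intro p hp
        have h1 : AnalyticAt ℂ (fun p : Fin d → ℂ => p i) p :=
          (ContinuousLinearMap.proj (R := ℂ) (φ := fun _ : Fin d => ℂ) i).analyticAt p
        exact analyticAt_const.mul h1)
      hbne (prj Z w) hc φ₀ (by
        intro j
        rw [hφζ, ← hx'2 j]
        simp only [hφ₀])
    refine ⟨Φ, hΦ1, hΦ2, ?_⟩
    have hstep : ∀ z ∈ ball (prj Z w) ρ', ‖(fun i => Φ z ⟨ξ i, hξ i⟩ / (R : ℂ)) - w‖ ≤ r₀ →
        ‖(fun i => Φ z ⟨ξ i, hξ i⟩ / (R : ℂ)) - w‖ < 3 * r₀ / 4 := by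
      intro z hz hφ
      have h1 := hN3 (fun i => Φ z ⟨ξ i, hξ i⟩) (GC.cover_point_of_hom ξ hξ (Φ z)) hφ
      have h2 : (prj Z fun i => Φ z ⟨ξ i, hξ i⟩ / (R : ℂ)) = z := by
        funext j
        rw [hprjdiv R (fun i => Φ z ⟨ξ i, hξ i⟩) j, ← hφζ, hΦ1 z hz j, mul_div_cancel_left₀ _ hR0]
      rw [h2] at h1
      have h3 := hHw z (ball_subset_ball hρ'ρ hz)
      have h4 : ‖(fun i => Φ z ⟨ξ i, hξ i⟩ / (R : ℂ)) - w‖ ≤
          ‖(fun i => Φ z ⟨ξ i, hξ i⟩ / (R : ℂ)) - H z‖ + ‖H z - w‖ := by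
        have := norm_add_le ((fun i => Φ z ⟨ξ i, hξ i⟩ / (R : ℂ)) - H z) (H z - w)
        rwa [sub_add_sub_cancel] at this
      linarith
    have hcont : ContinuousOn
        (fun z => ‖(fun i => Φ z ⟨ξ i, hξ i⟩ / (R : ℂ)) - w‖) (ball (prj Z w) ρ') := by
      apply ContinuousOn.norm
      apply ContinuousOn.sub _ continuousOn_const
      rw [continuousOn_pi]
      intro i
      exact (hΦ2 ⟨ξ i, hξ i⟩).continuousOn.div_const _
    intro z₃ h3D
    by_contra hcon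
    have hpre : IsPreconnected (ball (prj Z w) ρ') := (convex_ball _ _).isPreconnected
    have h2lt : ‖(fun i => Φ (prj Z w) ⟨ξ i, hξ i⟩ / (R : ℂ)) - w‖ < 3 * r₀ / 4 := by
      apply hstep _ hc
      rw [hΦ0]
      simp only [hφ₀]
      exact hx'3
    have := hpre.intermediate_value hc h3D hcont
    obtain ⟨y, hy, hyc⟩ := this (show (7 * r₀ / 8) ∈ _ from ⟨by linarith, by linarith⟩)
    have hyc' : ‖(fun i => Φ y ⟨ξ i, hξ i⟩ / (R : ℂ)) - w‖ = 7 * r₀ / 8 := hyc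
    have h4 := hstep y hy (by rw [hyc']; linarith)
    rw [hyc'] at h4
    linarith
  obtain ⟨N₀, hN₀⟩ := Filter.eventually_atTop.1 hev
  have hN₀' : ∀ ν : ℕ, _ := fun ν => hN₀ (N₀ + ν) (Nat.le_add_right _ _)
  choose hrpos hβne Φ hΦ1 hΦ2 hΦ3 using hN₀'
  have hshift : Tendsto (fun ν => N₀ + ν) atTop atTop := by
    simpa only [add_comm] using tendsto_add_atTop_nat N₀
  have hrlim : Tendsto (fun ν => r (N₀ + ν)) atTop atTop := hr.comp hshift
  have hR0 : ∀ ν, ((r (N₀ + ν) : ℝ) : ℂ) ≠ 0 := fun ν => by exact_mod_cast (hrpos ν).ne'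
  have hprj : ∀ ν, ∀ z ∈ ball (prj Z w) ρ',
      (prj Z fun i => Φ ν z ⟨ξ i, hξ i⟩ / ((r (N₀ + ν) : ℝ) : ℂ)) = z := by
    intro ν z hz
    funext j
    rw [hprjdiv _ (fun i => Φ ν z ⟨ξ i, hξ i⟩) j, ← hφζ, hΦ1 ν z hz j,
      mul_div_cancel_left₀ _ (hR0 ν)]
  have hmul : ∀ ν z, (fun i => ((r (N₀ + ν) : ℝ) : ℂ) *
      (Φ ν z ⟨ξ i, hξ i⟩ / ((r (N₀ + ν) : ℝ) : ℂ))) = fun i => Φ ν z ⟨ξ i, hξ i⟩ := by
    intro ν z
    funext i
    rw [mul_div_cancel₀ _ (hR0 ν)]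
  refine ⟨ρ', fun ν => r (N₀ + ν), fun ν z i => Φ ν z ⟨ξ i, hξ i⟩ / ((r (N₀ + ν) : ℝ) : ℂ),
    hρ'0, hρ'ρ, hrpos, hrlim, ?_, ?_, ?_⟩
  · intro ν
    rw [differentiableOn_pi]
    intro i
    have h1 : DifferentiableOn ℂ (fun z => Φ ν z ⟨ξ i, hξ i⟩ * (((r (N₀ + ν) : ℝ) : ℂ))⁻¹)
        (ball (prj Z w) ρ') :=
      DifferentiableOn.mul (hΦ2 ν ⟨ξ i, hξ i⟩) (differentiableOn_const _)
    simpa only [div_eq_mul_inv] using h1
  · intro ν z hz
    simp only [hmul ν z]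
    refine ⟨fun f hf => GC.cover_point_of_hom ξ hξ (Φ ν z) f ((hp f).1 hf), ?_, hprj ν z hz⟩
    intro h0
    have h1 : Φ ν z ⟨aeval ξ g, hgA⟩ = 0 := by
      have h2 : (⟨aeval ξ g, hgA⟩ : Algebra.adjoin ℂ (Set.range ξ)) =
          aeval (fun i => (⟨ξ i, hξ i⟩ : Algebra.adjoin ℂ (Set.range ξ))) g := by
        apply Subtype.ext
        have h3 := MvPolynomial.comp_aeval_apply
          (fun i => (⟨ξ i, hξ i⟩ : Algebra.adjoin ℂ (Set.range ξ)))
          (Algebra.adjoin ℂ (Set.range ξ)).val g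
        simp only [Subalgebra.coe_val] at h3
        exact h3.symm
      rw [h2, MvPolynomial.comp_aeval_apply, MvPolynomial.aeval_eq_eval]
      exact h0
    have h2 : eval (fun j => ((r (N₀ + ν) : ℝ) : ℂ) * z j) β' = 0 := by
      have h3 := congrArg (Φ ν z) hgc
      rw [map_mul, h1, zero_mul, MvPolynomial.comp_aeval_apply, MvPolynomial.aeval_eq_eval] at h3
      rw [← h3]
      congr 2
      funext j
      exact (hΦ1 ν z hz j).symm
    apply hβne ν z hz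
    rw [map_mul, h2, mul_zero]
  · intro ε hε
    filter_upwards [hrlim.eventually (hclose' ε hε)] with ν hν z hz
    have h1 := hν (fun i => Φ ν z ⟨ξ i, hξ i⟩) (GC.cover_point_of_hom ξ hξ (Φ ν z)) (hΦ3 ν z hz)
    rw [hprj ν z hz] at h1
    exact h1.le

end Pool.Agent.Lib.MP_209724_lc.GS
end

section

namespace Pool.Agent.Lib.MP_209724_lc.GD

open Filter Topology Metric Set
open GS (Ew)

variable {n d : ℕ}

/-- **Centers.** From points `v₀ ν ∈ G ν` over `t₀` with values `o(r ν)` one gets points of `G ν` over points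
tending to `t₀` with values tending to `0`.

Proof. Write `F ν v = x ν v.1 - v.2`, let `c₀` be the constant of `huo` for `R₀ = 1`. For large `ν` the proof
of `GP.path` (`GP/Path.lean`; copy it, with `M = G ν`, `R = 1 / r ν`, keeping the membership in `G ν`
instead of `p ≠ 0`) with `N = ⌈2 ‖F ν (v₀ ν)‖ / c₀⌉₊` steps gives `cen ν ∈ G ν` with
`‖(cen ν).1 - t₀‖ ≤ N / r ν ≤ (2 ‖F ν (v₀ ν)‖ / c₀ + 1) / r ν` and
`‖F ν (cen ν)‖ ≤ 1 / (ν + 1)`: the values `(1 - j / N) • F ν (v₀ ν)`, `j ≤ N`, are taken one after the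
other up to the error `min (1 / (ν + 1)) (c₀ / 2)`; all positions stay in `‖t - t₀‖ ≤ δ` for large `ν`,
because `(2 ‖F ν (v₀ ν)‖ / c₀ + 1) / r ν → 0` by `hsm` and `hr`. For the other `ν` take `cen ν = v₀ ν`. -/
theorem exists_centers (r : ℕ → ℝ) (hr0 : ∀ ν, 0 < r ν) (hr : Tendsto r atTop atTop)
    (x : ℕ → Ew d → Fin n → ℂ) (G : ℕ → Set (Ew d × (Fin n → ℂ))) {t₀ : Ew d} {δ : ℝ}
    (hδ : 0 < δ) (huo : UnifOpen r x G t₀ δ) (v₀ : ℕ → Ew d × (Fin n → ℂ))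
    (hv₀ : ∀ ν, v₀ ν ∈ G ν) (ht : ∀ ν, (v₀ ν).1 = t₀)
    (hsm : ∀ ε : ℝ, 0 < ε → ∀ᶠ ν in atTop, ‖x ν (v₀ ν).1 - (v₀ ν).2‖ ≤ ε * r ν) :
    ∃ cen : ℕ → Ew d × (Fin n → ℂ), (∀ᶠ ν in atTop, cen ν ∈ G ν) ∧
      Tendsto (fun ν => (cen ν).1) atTop (𝓝 t₀) ∧
      Tendsto (fun ν => x ν (cen ν).1 - (cen ν).2) atTop (𝓝 0) := by
  classical
  obtain ⟨c₀, hc₀, hev⟩ := huo 1 one_pos
  set N : ℕ → ℕ := fun ν => ⌈2 * ‖x ν (v₀ ν).1 - (v₀ ν).2‖ / c₀⌉₊ with hN
  have hN1 : ∀ ν, ‖x ν (v₀ ν).1 - (v₀ ν).2‖ ≤ N ν * (c₀ / 2) := by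
    intro ν
    have h1 : 2 * ‖x ν (v₀ ν).1 - (v₀ ν).2‖ / c₀ ≤ N ν := Nat.le_ceil _
    rw [div_le_iff₀ hc₀] at h1
    linarith
  have hN2 : ∀ ν, (N ν : ℝ) ≤ 2 * ‖x ν (v₀ ν).1 - (v₀ ν).2‖ / c₀ + 1 := by
    intro ν
    exact (Nat.ceil_lt_add_one (by positivity)).le
  -- the radii tend to zero
  have hrad : Tendsto (fun ν => (N ν : ℝ) / r ν) atTop (𝓝 0) := by
    rw [Metric.tendsto_atTop']
    intro ε hε
    have h1 := hsm (ε * c₀ / 8) (by positivity)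
    have h2 := hr.eventually_ge_atTop (4 / ε)
    obtain ⟨ν₀, hν₀⟩ := (h1.and h2).exists_forall_of_atTop
    refine ⟨ν₀, fun ν hν => ?_⟩
    obtain ⟨h3, h4⟩ := hν₀ ν hν.le
    have hrp := hr0 ν
    rw [Real.dist_eq, sub_zero, abs_of_nonneg (by positivity), div_lt_iff₀ hrp]
    have h5 : 4 ≤ ε * r ν := by
      rw [div_le_iff₀ hε] at h4
      linarith
    have h6 : 2 * ‖x ν (v₀ ν).1 - (v₀ ν).2‖ / c₀ ≤ ε * r ν / 4 := by
      rw [div_le_iff₀ hc₀]
      nlinarith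
    have h7 := hN2 ν
    nlinarith
  have hδev : ∀ᶠ ν in atTop, (N ν : ℝ) / r ν ≤ δ := by
    filter_upwards [hrad.eventually (Iio_mem_nhds hδ)] with ν hν
    exact le_of_lt hν
  have key : ∀ᶠ ν in atTop, ∃ v, v ∈ G ν ∧ ‖v.1 - t₀‖ ≤ (N ν : ℝ) / r ν ∧
      ‖x ν v.1 - v.2‖ ≤ 1 / ((ν : ℝ) + 1) := by
    filter_upwards [hev, hδev] with ν h1 h2
    obtain ⟨v, hv1, hv2, hv3⟩ := GP.path (M := G ν) (F := fun v => x ν v.1 - v.2)
      (p := fun _ => (1 : ℂ)) (v₀ := v₀ ν) (hv₀ ν) one_ne_zero (R := 1 / r ν) (c₀ := c₀)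
      (δ := (N ν : ℝ) / r ν) (by have := hr0 ν; positivity) hc₀ (N ν) t₀
      (fun v hv hvt _ c hc η hη => by
        obtain ⟨v', h3, h4, h5⟩ := h1 v hv (hvt.trans h2) c hc η hη
        exact ⟨v', h3, h4, h5, one_ne_zero⟩)
      (hN1 ν) (by rw [ht ν, sub_self, norm_zero, zero_add, mul_one_div])
      (η := 1 / ((ν : ℝ) + 1)) (by positivity)
    exact ⟨v, hv1, hv2, hv3⟩
  let cen : ℕ → Ew d × (Fin n → ℂ) := fun ν =>
    if h : ∃ v, v ∈ G ν ∧ ‖v.1 - t₀‖ ≤ (N ν : ℝ) / r ν ∧ ‖x ν v.1 - v.2‖ ≤ 1 / ((ν : ℝ) + 1)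
    then h.choose else v₀ ν
  have hcen : ∀ᶠ ν in atTop, cen ν ∈ G ν ∧ ‖(cen ν).1 - t₀‖ ≤ (N ν : ℝ) / r ν ∧
      ‖x ν (cen ν).1 - (cen ν).2‖ ≤ 1 / ((ν : ℝ) + 1) := by
    filter_upwards [key] with ν hν
    have h1 : cen ν = hν.choose := dif_pos hν
    rw [h1]
    exact hν.choose_spec
  refine ⟨cen, hcen.mono fun ν hν => hν.1, ?_, ?_⟩
  · rw [tendsto_iff_norm_sub_tendsto_zero]
    exact squeeze_zero' (Eventually.of_forall fun ν => norm_nonneg _)
      (hcen.mono fun ν hν => hν.2.1) hrad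
  · rw [tendsto_zero_iff_norm_tendsto_zero]
    exact squeeze_zero' (Eventually.of_forall fun ν => norm_nonneg _)
      (hcen.mono fun ν hν => hν.2.2) tendsto_one_div_add_atTop_nhds_zero_nat

end Pool.Agent.Lib.MP_209724_lc.GD
end
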