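import Mathlib
import Pool.Agent.Lib.MP_209724_lc.GP.Low
import Pool.Agent.Lib.MP_209724_lc.GD.Centers
import Pool.Agent.Lib.MP_209724_lc.GP.Local

section

namespace Pool.Agent.Lib.MP_209724_lc.GD

open Filter Topology Metric Set
open GS (Ew)

variable {n d : ℕ}

/-- **Points of the limit set with value in `2πi ℤⁿ` are limits of exact exponential points.**

Proof. Write `F ν v = x ν v.1 - v.2`. Let `a₀` be the sequence of `v ∈ Lam`, and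
`a₁ ν = ((a₀ ν).1, (a₀ ν).2 + 2πi m)`, which is in `G ν` for `𝒰`-many `ν` (`hshift`). As in `lam_open`
`F ν (a₀ ν) → L v.1 - v.2 = 2πi m`, so `F ν (a₁ ν) → 0`, and `(a₁ ν).1 → t₀` along `𝒰`. For `j : ℕ` let
`P j ν` be the statement: there is `v' ∈ M ν` with `‖v'.1 - (a₁ ν).1‖ ≤ (1 / (j + 1)) / r ν` and
`x ν v'.1 = v'.2`. By `hex` with `R₀ = 1 / (j + 1)` `{ν | P j ν} ∈ 𝒰` for every `j`. For each `ν` with
`P 0 ν` let `j(ν)` be the largest `j ≤ ν` with `P j ν` and `a ν` a corresponding `v'`; `j(ν) → ∞` along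
`𝒰` (`{ν | j ≤ ν ∧ P j ν} ∈ 𝒰`). So `r ν • ((a ν).1 - (a₁ ν).1) → 0`, hence
`r ν • ((a ν).1 - (cen ν).1) → v.1`, and by `hinc`
`(a ν).2 - (cen ν).2 = x ν (a ν).1 - (cen ν).2 = (x ν (a ν).1 - x ν (cen ν).1) + F ν (cen ν) → L v.1`,
which is `v.2 + 2πi m`. Also `(a ν).1 → t₀`, so `‖(a ν).1 - t₀‖ ≤ δ` for `𝒰`-many `ν`. -/
theorem lam_exact (𝒰 : Ultrafilter ℕ) (h𝒰 : (𝒰 : Filter ℕ) ≤ atTop) (r : ℕ → ℝ)
    (hr0 : ∀ ν, 0 < r ν) (hr : Tendsto r atTop atTop) (x : ℕ → Ew d → Fin n → ℂ)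
    (M G : ℕ → Set (Ew d × (Fin n → ℂ))) {t₀ : Ew d} {δ : ℝ} (hδ : 0 < δ)
    (hshift : ∀ ν, ∀ v ∈ G ν, ∀ m : Fin n → ℤ,
      ((v.1, fun i => v.2 i + 2 * Real.pi * Complex.I * m i) : Ew d × (Fin n → ℂ)) ∈ G ν)
    (hex : ∀ R₀ : ℝ, 0 < R₀ → ∃ c₀ : ℝ, 0 < c₀ ∧ ∀ᶠ ν in atTop, ∀ v ∈ G ν, ‖v.1 - t₀‖ ≤ δ →
      ‖x ν v.1 - v.2‖ ≤ c₀ → ∃ v' ∈ M ν, ‖v'.1 - v.1‖ ≤ R₀ / r ν ∧ x ν v'.1 = v'.2)
    (cen : ℕ → Ew d × (Fin n → ℂ)) (hcen1 : Tendsto (fun ν => (cen ν).1) atTop (𝓝 t₀))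
    (hcen2 : Tendsto (fun ν => x ν (cen ν).1 - (cen ν).2) atTop (𝓝 0))
    (L : Ew d →L[ℂ] (Fin n → ℂ))
    (hinc : ∀ (a : ℕ → Ew d) (ζ : Ew d),
      Tendsto (fun ν => (r ν : ℂ) • (a ν - (cen ν).1)) 𝒰 (𝓝 ζ) →
      Tendsto (fun ν => x ν (a ν) - x ν (cen ν).1) 𝒰 (𝓝 (L ζ)))
    {v : Ew d × (Fin n → ℂ)} (hv : v ∈ Lam 𝒰 r G cen) (m : Fin n → ℤ)
    (hm : ∀ i, L v.1 i - v.2 i = 2 * Real.pi * Complex.I * m i) :
    ∃ a : ℕ → Ew d × (Fin n → ℂ),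
      (∀ᶠ ν in 𝒰, a ν ∈ M ν ∧ x ν (a ν).1 = (a ν).2 ∧ ‖(a ν).1 - t₀‖ ≤ δ) ∧
      Tendsto (fun ν => (r ν : ℂ) • ((a ν).1 - (cen ν).1)) 𝒰 (𝓝 v.1) ∧
      Tendsto (fun ν => (a ν).2 - (cen ν).2) 𝒰
        (𝓝 fun i => v.2 i + 2 * Real.pi * Complex.I * m i) := by
  obtain ⟨a₀, ha₀G, ha₀1, ha₀2⟩ := hv
  have hr𝒰 : Tendsto r 𝒰 atTop := hr.mono_left h𝒰
  have hcen1' : Tendsto (fun ν => (cen ν).1) 𝒰 (𝓝 t₀) := hcen1.mono_left h𝒰
  have hcen2' : Tendsto (fun ν => x ν (cen ν).1 - (cen ν).2) 𝒰 (𝓝 0) := hcen2.mono_left h𝒰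
  -- inverse of `r`
  have hrinv : Tendsto (fun ν => ((r ν : ℂ))⁻¹) 𝒰 (𝓝 0) := by
    have h1 : Tendsto (fun ν => (r ν)⁻¹) 𝒰 (𝓝 0) := hr𝒰.inv_tendsto_atTop
    have h2 : Tendsto (fun ν => (((r ν)⁻¹ : ℝ) : ℂ)) 𝒰 (𝓝 ((0 : ℝ) : ℂ)) :=
      (Complex.continuous_ofReal.tendsto 0).comp h1
    simpa using h2
  have hrne : ∀ ν, (r ν : ℂ) ≠ 0 := fun ν => by
    exact_mod_cast (hr0 ν).ne'
  -- positions converging to `t₀`
  have hpos : ∀ (b : ℕ → Ew d) (ζ : Ew d),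
      Tendsto (fun ν => (r ν : ℂ) • (b ν - (cen ν).1)) 𝒰 (𝓝 ζ) → Tendsto b 𝒰 (𝓝 t₀) := by
    intro b ζ hb
    have h1 : Tendsto (fun ν => ((r ν : ℂ))⁻¹ • ((r ν : ℂ) • (b ν - (cen ν).1))) 𝒰
        (𝓝 ((0 : ℂ) • ζ)) := hrinv.smul hb
    have h2 : (fun ν => ((r ν : ℂ))⁻¹ • ((r ν : ℂ) • (b ν - (cen ν).1)))
        = fun ν => b ν - (cen ν).1 := by
      funext ν
      rw [smul_smul, inv_mul_cancel₀ (hrne ν), one_smul]
    rw [h2, zero_smul] at h1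
    have h3 := h1.add hcen1'
    simpa using h3
  have ha₀t : Tendsto (fun ν => (a₀ ν).1) 𝒰 (𝓝 t₀) := hpos _ _ ha₀1
  -- the shifted points
  set μ : Fin n → ℂ := fun i => 2 * Real.pi * Complex.I * m i with hμ
  have hF : Tendsto (fun ν => x ν (a₀ ν).1 - ((a₀ ν).2 + μ)) 𝒰 (𝓝 0) := by
    have h1 := hinc (fun ν => (a₀ ν).1) v.1 ha₀1
    have h2 := (h1.add hcen2').sub ha₀2
    have h3 : Tendsto (fun ν => (x ν (a₀ ν).1 - x ν (cen ν).1 + (x ν (cen ν).1 - (cen ν).2)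
        - ((a₀ ν).2 - (cen ν).2)) - μ) 𝒰 (𝓝 ((L v.1 + 0 - v.2) - μ)) :=
      h2.sub tendsto_const_nhds
    have h4 : (L v.1 + 0 - v.2) - μ = 0 := by
      funext i
      simp only [Pi.sub_apply, Pi.zero_apply, add_zero, hμ]
      rw [hm i]
      ring
    rw [h4] at h3
    refine h3.congr fun ν => ?_
    abel
  have hball : ∀ᶠ ν in (𝒰 : Filter ℕ), ‖(a₀ ν).1 - t₀‖ ≤ δ := by
    have h1 : Tendsto (fun ν => (a₀ ν).1 - t₀) 𝒰 (𝓝 0) := by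
      have := ha₀t.sub (tendsto_const_nhds (x := t₀))
      simpa using this
    have h2 : Tendsto (fun ν => ‖(a₀ ν).1 - t₀‖) 𝒰 (𝓝 0) := by
      simpa using h1.norm
    exact (h2.eventually (gt_mem_nhds hδ)).mono fun ν hν => le_of_lt hν
  have key : ∀ j : ℕ, ∀ᶠ ν in (𝒰 : Filter ℕ), ∃ v' ∈ M ν,
      ‖v'.1 - (a₀ ν).1‖ ≤ (1 / ((j : ℝ) + 1)) / r ν ∧ x ν v'.1 = v'.2 := by
    intro j
    have hj : (0 : ℝ) < 1 / ((j : ℝ) + 1) := by positivity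
    obtain ⟨c₀, hc₀, hev⟩ := hex _ hj
    have hev' : ∀ᶠ ν in (𝒰 : Filter ℕ), ∀ v ∈ G ν, ‖v.1 - t₀‖ ≤ δ →
      ‖x ν v.1 - v.2‖ ≤ c₀ → ∃ v' ∈ M ν, ‖v'.1 - v.1‖ ≤ (1 / ((j : ℝ) + 1)) / r ν ∧
        x ν v'.1 = v'.2 := h𝒰 hev
    have hsmall : ∀ᶠ ν in (𝒰 : Filter ℕ), ‖x ν (a₀ ν).1 - ((a₀ ν).2 + μ)‖ ≤ c₀ := by
      have h2 : Tendsto (fun ν => ‖x ν (a₀ ν).1 - ((a₀ ν).2 + μ)‖) 𝒰 (𝓝 0) := by
        simpa using hF.norm
      exact (h2.eventually (gt_mem_nhds hc₀)).mono fun ν hν => le_of_lt hν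
    filter_upwards [hev', ha₀G, hball, hsmall] with ν h1 h2 h3 h4
    exact h1 ((a₀ ν).1, fun i => (a₀ ν).2 i + 2 * Real.pi * Complex.I * m i)
      (hshift ν _ h2 m) h3 h4
  -- choose nearly optimal points
  have hchoose : ∀ ν : ℕ, ∃ a : Ew d × (Fin n → ℂ),
      (∃ v' ∈ M ν, x ν v'.1 = v'.2) → a ∈ M ν ∧ x ν a.1 = a.2 ∧
        ∀ b ∈ M ν, x ν b.1 = b.2 →
          ‖a.1 - (a₀ ν).1‖ ≤ ‖b.1 - (a₀ ν).1‖ + (1 / ((ν : ℝ) + 1)) / r ν := by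
    intro ν
    by_cases hne : ∃ v' ∈ M ν, x ν v'.1 = v'.2
    · set S : Set ℝ := {s | ∃ b ∈ M ν, x ν b.1 = b.2 ∧ ‖b.1 - (a₀ ν).1‖ = s} with hS
      have hSne : S.Nonempty := by
        obtain ⟨v', h1, h2⟩ := hne
        exact ⟨_, v', h1, h2, rfl⟩
      have hSbdd : BddBelow S := ⟨0, by
        rintro s ⟨b, -, -, rfl⟩
        exact norm_nonneg _⟩
      have hpos' : (0 : ℝ) < (1 / ((ν : ℝ) + 1)) / r ν := by
        have := hr0 ν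
        positivity
      obtain ⟨s, ⟨a, ha1, ha2, ha3⟩, hs⟩ := exists_lt_of_csInf_lt hSne
        (lt_add_of_pos_right (sInf S) hpos')
      refine ⟨a, fun _ => ⟨ha1, ha2, fun b hb1 hb2 => ?_⟩⟩
      rw [ha3]
      have : sInf S ≤ ‖b.1 - (a₀ ν).1‖ := csInf_le hSbdd ⟨b, hb1, hb2, rfl⟩
      linarith
    · exact ⟨a₀ ν, fun h => absurd h hne⟩
  choose a ha using hchoose
  have hexists : ∀ᶠ ν in (𝒰 : Filter ℕ), ∃ v' ∈ M ν, x ν v'.1 = v'.2 :=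
    (key 0).mono fun ν ⟨v', h1, _, h3⟩ => ⟨v', h1, h3⟩
  have hdist : Tendsto (fun ν => (r ν : ℂ) • ((a ν).1 - (a₀ ν).1)) 𝒰 (𝓝 0) := by
    rw [Metric.tendsto_nhds]
    intro ε hε
    obtain ⟨j, hj⟩ := exists_nat_one_div_lt (half_pos hε)
    have hν : ∀ᶠ ν : ℕ in (𝒰 : Filter ℕ), 1 / ((ν : ℝ) + 1) < ε / 2 :=
      h𝒰 ((tendsto_one_div_add_atTop_nhds_zero_nat (𝕜 := ℝ)).eventually
        (gt_mem_nhds (half_pos hε)))
    filter_upwards [key j, hν, hexists] with ν h1 h2 h3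
    obtain ⟨b, hb1, hb2, hb3⟩ := h1
    obtain ⟨-, -, hopt⟩ := ha ν h3
    have h4 := hopt b hb1 hb3
    rw [dist_zero_right, norm_smul, Complex.norm_real, Real.norm_eq_abs, abs_of_pos (hr0 ν)]
    have h5 : ‖(a ν).1 - (a₀ ν).1‖ ≤ (1 / ((j : ℝ) + 1)) / r ν + (1 / ((ν : ℝ) + 1)) / r ν := by
      linarith
    have h6 : r ν * ‖(a ν).1 - (a₀ ν).1‖ ≤ 1 / ((j : ℝ) + 1) + 1 / ((ν : ℝ) + 1) := by
      calc r ν * ‖(a ν).1 - (a₀ ν).1‖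
          ≤ r ν * ((1 / ((j : ℝ) + 1)) / r ν + (1 / ((ν : ℝ) + 1)) / r ν) :=
            mul_le_mul_of_nonneg_left h5 (hr0 ν).le
        _ = 1 / ((j : ℝ) + 1) + 1 / ((ν : ℝ) + 1) := by
            rw [mul_add, mul_div_cancel₀ _ (hr0 ν).ne', mul_div_cancel₀ _ (hr0 ν).ne']
    linarith
  have haz : Tendsto (fun ν => (r ν : ℂ) • ((a ν).1 - (cen ν).1)) 𝒰 (𝓝 v.1) := by
    have h1 := hdist.add ha₀1
    rw [zero_add] at h1
    refine h1.congr fun ν => ?_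
    rw [← smul_add]
    congr 1
    abel
  have hat : Tendsto (fun ν => (a ν).1) 𝒰 (𝓝 t₀) := hpos _ _ haz
  have hballa : ∀ᶠ ν in (𝒰 : Filter ℕ), ‖(a ν).1 - t₀‖ ≤ δ := by
    have h1 : Tendsto (fun ν => (a ν).1 - t₀) 𝒰 (𝓝 0) := by
      have := hat.sub (tendsto_const_nhds (x := t₀))
      simpa using this
    have h2 : Tendsto (fun ν => ‖(a ν).1 - t₀‖) 𝒰 (𝓝 0) := by
      simpa using h1.norm
    exact (h2.eventually (gt_mem_nhds hδ)).mono fun ν hν => le_of_lt hν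
  refine ⟨a, ?_, haz, ?_⟩
  · filter_upwards [hexists, hballa] with ν h1 h2
    obtain ⟨h3, h4, -⟩ := ha ν h1
    exact ⟨h3, h4, h2⟩
  · have h1 := hinc (fun ν => (a ν).1) v.1 haz
    have h2 := h1.add hcen2'
    have h3 : (L v.1 + 0 : Fin n → ℂ) = fun i => v.2 i + 2 * Real.pi * Complex.I * m i := by
      funext i
      simp only [Pi.add_apply, Pi.zero_apply, add_zero]
      rw [← hm i]
      ring
    rw [h3] at h2
    refine h2.congr' ?_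
    filter_upwards [hexists] with ν hν
    obtain ⟨-, h4, -⟩ := ha ν hν
    rw [h4]
    abel

end Pool.Agent.Lib.MP_209724_lc.GD
end

section

namespace Pool.Agent.Lib.MP_209724_lc.GD

open Filter Topology Metric Set
open GS (Ew)

variable {n d : ℕ}

/-- **Openness passes to the limit.**

Proof. Write `F ν v = x ν v.1 - v.2`. Let `c₁` be the constant of `huo` for `R₀`; take `c₀ = c₁ / 2`. Let
`v ∈ Lam` with the sequence `a`, and `‖c - (L v.1 - v.2)‖ ≤ c₀`. Then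
`F ν (a ν) = (x ν (a ν).1 - x ν (cen ν).1) - ((a ν).2 - (cen ν).2) + F ν (cen ν) → L v.1 - v.2` along `𝒰`
(`hinc`, `hcen2`, `h𝒰`), so `‖c - F ν (a ν)‖ ≤ c₁` for `𝒰`-many `ν`; and
`(a ν).1 - (cen ν).1 = (r ν)⁻¹ • (bounded) → 0`, so `(a ν).1 → t₀` and `‖(a ν).1 - t₀‖ ≤ δ` for `𝒰`-many
`ν`. By `huo` choose for these `ν` (with `η = 1 / (ν + 1)`) `a' ν ∈ G ν` with
`‖(a' ν).1 - (a ν).1‖ ≤ R₀ / r ν`, `‖F ν (a' ν) - c‖ ≤ 1 / (ν + 1)`. The sequence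
`r ν • ((a' ν).1 - (cen ν).1)` is bounded for `𝒰`-many `ν`, so it has a limit `ζ'` along the ultrafilter
(`IsCompact.ultrafilter_le_nhds`, `Ultrafilter.map`), and `‖ζ' - v.1‖ ≤ R₀` because
`‖r ν • ((a' ν).1 - (a ν).1)‖ ≤ R₀`. Finally
`(a' ν).2 - (cen ν).2 = (x ν (a' ν).1 - x ν (cen ν).1) - F ν (a' ν) + F ν (cen ν) → L ζ' - c`. So
`(ζ', L ζ' - c) ∈ Lam`. -/
theorem lam_open (𝒰 : Ultrafilter ℕ) (h𝒰 : (𝒰 : Filter ℕ) ≤ atTop) (r : ℕ → ℝ)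
    (hr0 : ∀ ν, 0 < r ν) (hr : Tendsto r atTop atTop) (x : ℕ → Ew d → Fin n → ℂ)
    (G : ℕ → Set (Ew d × (Fin n → ℂ))) {t₀ : Ew d} {δ : ℝ} (hδ : 0 < δ)
    (huo : UnifOpen r x G t₀ δ) (cen : ℕ → Ew d × (Fin n → ℂ))
    (hcen1 : Tendsto (fun ν => (cen ν).1) atTop (𝓝 t₀))
    (hcen2 : Tendsto (fun ν => x ν (cen ν).1 - (cen ν).2) atTop (𝓝 0))
    (L : Ew d →L[ℂ] (Fin n → ℂ))
    (hinc : ∀ (a : ℕ → Ew d) (ζ : Ew d),
      Tendsto (fun ν => (r ν : ℂ) • (a ν - (cen ν).1)) 𝒰 (𝓝 ζ) →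
      Tendsto (fun ν => x ν (a ν) - x ν (cen ν).1) 𝒰 (𝓝 (L ζ))) :
    LamOpen L (Lam 𝒰 r G cen) := by
  intro R₀ hR₀
  obtain ⟨c₁, hc₁, hev⟩ := huo R₀ hR₀
  refine ⟨c₁ / 2, half_pos hc₁, fun v hv c hc => ?_⟩
  obtain ⟨a, haG, ha1, ha2⟩ := hv
  have hr𝒰 : Tendsto r 𝒰 atTop := hr.mono_left h𝒰
  have hrinv : Tendsto (fun ν => ((r ν : ℂ))⁻¹) 𝒰 (𝓝 0) := by
    have h1 : Tendsto (fun ν => (r ν)⁻¹) 𝒰 (𝓝 0) := tendsto_inv_atTop_zero.comp hr𝒰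
    have h2 := (Complex.continuous_ofReal.tendsto 0).comp h1
    simpa [Function.comp_def] using h2
  have h1 : Tendsto (fun ν => (a ν).1 - (cen ν).1) 𝒰 (𝓝 0) := by
    have h2 := hrinv.smul ha1
    rw [zero_smul] at h2
    refine h2.congr fun ν => ?_
    have : (r ν : ℂ) ≠ 0 := by exact_mod_cast (hr0 ν).ne'
    rw [smul_smul, inv_mul_cancel₀ this, one_smul]
  have h2 : Tendsto (fun ν => (a ν).1) 𝒰 (𝓝 t₀) := by
    have h3 := h1.add (hcen1.mono_left h𝒰)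
    rw [zero_add] at h3
    refine h3.congr fun ν => ?_
    abel
  have h3 : Tendsto (fun ν => x ν (a ν).1 - x ν (cen ν).1) 𝒰 (𝓝 (L v.1)) :=
    hinc (fun ν => (a ν).1) v.1 ha1
  have h4 : Tendsto (fun ν => x ν (a ν).1 - (a ν).2) 𝒰 (𝓝 (L v.1 - v.2)) := by
    have h5 := (h3.sub ha2).add (hcen2.mono_left h𝒰)
    rw [add_zero] at h5
    refine h5.congr fun ν => ?_
    abel
  have h5 : ∀ᶠ ν in (𝒰 : Filter ℕ), ‖c - (x ν (a ν).1 - (a ν).2)‖ ≤ c₁ := by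
    have h6 : Tendsto (fun ν => ‖c - (x ν (a ν).1 - (a ν).2)‖) 𝒰
        (𝓝 ‖c - (L v.1 - v.2)‖) := (tendsto_const_nhds.sub h4).norm
    have h7 : ‖c - (L v.1 - v.2)‖ < c₁ := by linarith
    exact (h6.eventually_lt_const h7).mono fun ν hν => hν.le
  have h6 : ∀ᶠ ν in (𝒰 : Filter ℕ), ‖(a ν).1 - t₀‖ ≤ δ := by
    have h7 : Tendsto (fun ν => ‖(a ν).1 - t₀‖) 𝒰 (𝓝 0) := by
      have := (h2.sub (tendsto_const_nhds (x := t₀))).norm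
      simpa using this
    exact (h7.eventually_lt_const hδ).mono fun ν hν => hν.le
  have h7 := h𝒰 hev
  have h8 : ∀ ν, ∃ v' : Ew d × (Fin n → ℂ),
      ((∃ w ∈ G ν, ‖w.1 - (a ν).1‖ ≤ R₀ / r ν ∧
        ‖(x ν w.1 - w.2) - c‖ ≤ 1 / ((ν : ℝ) + 1)) →
      v' ∈ G ν ∧ ‖v'.1 - (a ν).1‖ ≤ R₀ / r ν ∧
        ‖(x ν v'.1 - v'.2) - c‖ ≤ 1 / ((ν : ℝ) + 1)) := by
    intro ν
    by_cases hw : ∃ w ∈ G ν, ‖w.1 - (a ν).1‖ ≤ R₀ / r ν ∧
        ‖(x ν w.1 - w.2) - c‖ ≤ 1 / ((ν : ℝ) + 1)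
    · obtain ⟨w, h⟩ := hw
      exact ⟨w, fun _ => h⟩
    · exact ⟨cen ν, fun h => absurd h hw⟩
  choose a' ha' using h8
  have h9 : ∀ᶠ ν in (𝒰 : Filter ℕ), a' ν ∈ G ν ∧ ‖(a' ν).1 - (a ν).1‖ ≤ R₀ / r ν ∧
        ‖(x ν (a' ν).1 - (a' ν).2) - c‖ ≤ 1 / ((ν : ℝ) + 1) := by
    filter_upwards [haG, h5, h6, h7] with ν g5 g6 g7 g8
    exact ha' ν (g8 (a ν) g5 g7 c g6 _ (by positivity))
  have h10 : ∀ᶠ ν in (𝒰 : Filter ℕ),
      ‖(r ν : ℂ) • ((a' ν).1 - (cen ν).1) - (r ν : ℂ) • ((a ν).1 - (cen ν).1)‖ ≤ R₀ := by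
    filter_upwards [h9] with ν g
    have e : (r ν : ℂ) • ((a' ν).1 - (cen ν).1) - (r ν : ℂ) • ((a ν).1 - (cen ν).1) =
        (r ν : ℂ) • ((a' ν).1 - (a ν).1) := by
      rw [← smul_sub]
      congr 1
      abel
    rw [e, norm_smul, Complex.norm_real, Real.norm_eq_abs, abs_of_pos (hr0 ν)]
    have := mul_le_mul_of_nonneg_left g.2.1 (hr0 ν).le
    rwa [mul_div_cancel₀ _ (hr0 ν).ne'] at this
  have h11 : ∀ᶠ ν in (𝒰 : Filter ℕ), ‖(r ν : ℂ) • ((a ν).1 - (cen ν).1)‖ ≤ ‖v.1‖ + 1 := by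
    exact (ha1.norm.eventually_lt_const (lt_add_one _)).mono fun ν hν => hν.le
  obtain ⟨ζ', -, hζ'⟩ := (isCompact_closedBall (0 : Ew d) (R₀ + (‖v.1‖ + 1))).ultrafilter_le_nhds
    (𝒰.map fun ν => (r ν : ℂ) • ((a' ν).1 - (cen ν).1)) (by
      rw [Ultrafilter.coe_map, Filter.le_principal_iff, Filter.mem_map]
      filter_upwards [h10, h11] with ν g10 g11
      rw [mem_preimage, mem_closedBall_zero_iff]
      calc ‖(r ν : ℂ) • ((a' ν).1 - (cen ν).1)‖ =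
          ‖((r ν : ℂ) • ((a' ν).1 - (cen ν).1) - (r ν : ℂ) • ((a ν).1 - (cen ν).1)) +
            (r ν : ℂ) • ((a ν).1 - (cen ν).1)‖ := by rw [sub_add_cancel]
        _ ≤ _ := norm_add_le _ _
        _ ≤ R₀ + (‖v.1‖ + 1) := add_le_add g10 g11)
  have hζ : Tendsto (fun ν => (r ν : ℂ) • ((a' ν).1 - (cen ν).1)) 𝒰 (𝓝 ζ') := hζ'
  have h12 : ‖ζ' - v.1‖ ≤ R₀ := le_of_tendsto (hζ.sub ha1).norm h10
  have h13 : Tendsto (fun ν => x ν (a' ν).1 - x ν (cen ν).1) 𝒰 (𝓝 (L ζ')) :=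
    hinc (fun ν => (a' ν).1) ζ' hζ
  have h14 : Tendsto (fun ν => x ν (a' ν).1 - (a' ν).2) 𝒰 (𝓝 c) := by
    rw [tendsto_iff_norm_sub_tendsto_zero]
    refine squeeze_zero' (Eventually.of_forall fun ν => norm_nonneg _)
      (h9.mono fun ν g => g.2.2) ?_
    exact tendsto_one_div_add_atTop_nhds_zero_nat.mono_left h𝒰
  refine ⟨(ζ', L ζ' - c), ⟨a', h9.mono fun ν g => g.1, hζ, ?_⟩, h12, by simp⟩
  have h15 := (h13.sub h14).add (hcen2.mono_left h𝒰)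
  rw [add_zero] at h15
  refine h15.congr fun ν => ?_
  abel

end Pool.Agent.Lib.MP_209724_lc.GD
end

section

namespace Pool.Agent.Lib.MP_209724_lc.GD

open Filter Topology Metric Set
open GS (Ew)

variable {n d : ℕ}

/-- **Increments along an ultrafilter.** As `GP.increments` (`GP/WLim.lean`).

Proof. Suppose not: there is a neighbourhood `N` of `fderiv ℂ H t₀ ζ` such that
`A = {ν | r X(t') - r X(t) ∉ N} ∈ 𝒰` (`𝒰` is an ultrafilter). For each `m` the set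
`B_m = {ν | m ≤ ν ∧ ‖t ν - t₀‖ ≤ δ / (m + 1) ∧ ‖r ν • (t' ν - t ν) - ζ‖ ≤ 1 / (m + 1)}` is in `𝒰`, where
`δ = ρ / 2`; choose `φ m ∈ A ∩ B_m`. Then `φ m ≥ m`, so `φ → ∞`, `t ∘ φ → t₀`,
`ξ m = r (φ m) • (t' (φ m) - t (φ m)) → ζ`, and `t (φ m) + (r (φ m))⁻¹ • ξ m = t' (φ m)`. By
`GP.increments` `r X(t') - r X(t)` tends to `fderiv ℂ H t₀ ζ` along `φ`, which contradicts
`φ m ∈ A`. -/
theorem increments_u (t₀ : Ew d) {ρ : ℝ} (hρ : 0 < ρ) (r : ℕ → ℝ) (hr0 : ∀ ν, 0 < r ν)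
    (hr : Tendsto r atTop atTop) (X : ℕ → Ew d → Fin n → ℂ)
    (hX : ∀ ν, DifferentiableOn ℂ (X ν) (ball t₀ ρ)) (H : Ew d → Fin n → ℂ)
    (hH : DifferentiableOn ℂ H (ball t₀ ρ))
    (hXH : ∀ ε : ℝ, 0 < ε → ∀ᶠ ν in atTop, ∀ t ∈ ball t₀ ρ, ‖X ν t - H t‖ ≤ ε)
    (𝒰 : Ultrafilter ℕ) (h𝒰 : (𝒰 : Filter ℕ) ≤ atTop) (t t' : ℕ → Ew d)
    (ht : Tendsto t 𝒰 (𝓝 t₀)) {ζ : Ew d}
    (hζ : Tendsto (fun ν => (r ν : ℂ) • (t' ν - t ν)) 𝒰 (𝓝 ζ)) :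
    Tendsto (fun ν => (r ν : ℂ) • X ν (t' ν) - (r ν : ℂ) • X ν (t ν)) 𝒰
      (𝓝 (fderiv ℂ H t₀ ζ)) := by
  classical
  by_contra hcon
  rw [tendsto_def] at hcon
  push Not at hcon
  obtain ⟨N, hN, hA⟩ := hcon
  have hA' : ∀ᶠ ν in (𝒰 : Filter ℕ),
      (r ν : ℂ) • X ν (t' ν) - (r ν : ℂ) • X ν (t ν) ∉ N := by
    have h1 := Ultrafilter.compl_mem_iff_notMem.2 hA
    filter_upwards [h1] with ν hν
    exact hν
  have hB : ∀ m : ℕ, ∃ ν : ℕ, m ≤ ν ∧ ‖t ν - t₀‖ ≤ (ρ / 2) / (m + 1) ∧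
      ‖(r ν : ℂ) • (t' ν - t ν) - ζ‖ ≤ 1 / ((m : ℝ) + 1) ∧
      (r ν : ℂ) • X ν (t' ν) - (r ν : ℂ) • X ν (t ν) ∉ N := by
    intro m
    have h1 : ∀ᶠ ν in (𝒰 : Filter ℕ), m ≤ ν := h𝒰 (eventually_ge_atTop m)
    have h2 : ∀ᶠ ν in (𝒰 : Filter ℕ), ‖t ν - t₀‖ ≤ (ρ / 2) / (m + 1) := by
      have := ht (closedBall_mem_nhds t₀ (ε := (ρ / 2) / (m + 1)) (by positivity))
      filter_upwards [this] with ν hν
      rwa [← mem_closedBall_iff_norm]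
    have h3 : ∀ᶠ ν in (𝒰 : Filter ℕ), ‖(r ν : ℂ) • (t' ν - t ν) - ζ‖ ≤ 1 / ((m : ℝ) + 1) := by
      have := hζ (closedBall_mem_nhds ζ (ε := 1 / ((m : ℝ) + 1)) (by positivity))
      filter_upwards [this] with ν hν
      rwa [← mem_closedBall_iff_norm]
    obtain ⟨ν, h4, h5, h6, h7⟩ := (h1.and (h2.and (h3.and hA'))).exists
    exact ⟨ν, h4, h5, h6, h7⟩
  choose φ hφ1 hφ2 hφ3 hφ4 using hB
  have hφ : Tendsto φ atTop atTop := tendsto_atTop_mono hφ1 tendsto_id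
  have hone : Tendsto (fun m : ℕ => 1 / ((m : ℝ) + 1)) atTop (𝓝 0) :=
    tendsto_one_div_add_atTop_nhds_zero_nat
  have htφ : Tendsto (fun m => t (φ m)) atTop (𝓝 t₀) := by
    rw [tendsto_iff_norm_sub_tendsto_zero]
    have h1 : Tendsto (fun m : ℕ => (ρ / 2) / ((m : ℝ) + 1)) atTop (𝓝 0) := by
      have h2 := hone.const_mul (ρ / 2)
      rw [mul_zero] at h2
      refine h2.congr fun m => ?_
      ring
    exact squeeze_zero (fun m => norm_nonneg _) hφ2 h1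
  have hξφ : Tendsto (fun m => (r (φ m) : ℂ) • (t' (φ m) - t (φ m))) atTop (𝓝 ζ) := by
    rw [tendsto_iff_norm_sub_tendsto_zero]
    exact squeeze_zero (fun m => norm_nonneg _) hφ3 hone
  have hle : ∀ m, ‖t (φ m) - t₀‖ ≤ ρ / 2 := by
    intro m
    refine (hφ2 m).trans ?_
    refine div_le_self (by positivity) ?_
    have : (0 : ℝ) ≤ m := Nat.cast_nonneg m
    linarith
  have hlim := GP.increments (n := n) (d := d) t₀ (ρ := ρ) (δ := ρ / 2) (by positivity)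
    (by linarith) r hr0 hr X hX H hH hXH φ hφ (fun m => t (φ m)) hle htφ
    (fun m => (r (φ m) : ℂ) • (t' (φ m) - t (φ m))) hξφ
  have hev := hlim hN
  rw [mem_map] at hev
  obtain ⟨m, hm⟩ := Filter.Eventually.exists (f := (atTop : Filter ℕ)) hev
  apply hφ4 m
  have hrc : (r (φ m) : ℂ) ≠ 0 := by exact_mod_cast (hr0 (φ m)).ne'
  have h1 : t (φ m) + ((r (φ m) : ℂ))⁻¹ • ((r (φ m) : ℂ) • (t' (φ m) - t (φ m))) = t' (φ m) := by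
    rw [smul_smul, inv_mul_cancel₀ hrc, one_smul, add_sub_cancel]
  simp only [h1] at hm
  rw [← smul_sub]
  exact hm

end Pool.Agent.Lib.MP_209724_lc.GD
end

section

namespace Pool.Agent.Lib.MP_209724_lc.GD

open Filter Topology Metric Set
open GS (Ew)

variable {n d : ℕ}

/-- **Recurrence.** The hypotheses of `chain`, and `T = L(ℂ^d)` is stable under complex conjugation and
on it no nonzero integral form vanishes. If `(ζ, w) ∈ Λ` and `Re w` is (the real vector) `L ζ₀`, then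
`(ζ, w)` is a limit of points `v'` of `Λ` for which `L v'.1 - v'.2 ∈ 2πi ℤⁿ`, in the sense that there
are such points with `v'.2` arbitrarily close to `w`.

Proof. Let `T_R = {τ : Fin n → ℝ | ∃ ζ, ∀ i, L ζ i = τ i}`, a real subspace. For `m ≠ 0` there is `ζ` with
`m · L ζ ≠ 0` (`hm`); with `ζ'` from `hconj`, `L ((ζ + ζ')/2)` and `L ((ζ - ζ')/(2i))` are the real
and the imaginary part of `L ζ`, so they are in `T_R` and one of them has `m · τ ≠ 0`. Let `ε' > 0` be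
small and `c₀` the constant of `hopen` for `R₀ = ε'`. By `kronecker` there are `τ ∈ T_R`, `τ = L ζ₁`, and
`m` with `|τ_i - Im w_i - 2π m_i| ≤ min c₀ ε'`. Let `ζ' = ζ₀ + i ζ₁`; then
`L ζ' - w = i (τ - Im w)`. By `chain` there is `v'' ∈ Λ` with `‖v''.1 - ζ'‖ ≤ ε'` and
`L v''.1 - v''.2 = L ζ' - w`, so `v''.2 - w = L (v''.1 - ζ')` is small, and
`‖2πi m - (L v''.1 - v''.2)‖ ≤ c₀`. By `hopen` there is `v' ∈ Λ` with `‖v'.1 - v''.1‖ ≤ ε'`,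
`L v'.1 - v'.2 = 2πi m`; so `v'.2 - v''.2 = L(v'.1 - v''.1) - (2πi m - (L v''.1 - v''.2))` has norm
`≤ ‖L‖ ε' + ε'`. Altogether `‖v'.2 - w‖ ≤ (2 ‖L‖ + 1) ε'`. -/
theorem recur {J : Type} [Fintype J] (S : J → Finset (Fin n → ℕ)) (L : Ew d →L[ℂ] (Fin n → ℂ))
    (hsel : ∀ b : Ew d, ∀ α β : J → Fin n → ℕ, (∀ j, α j ∈ S j ∧ β j ∈ S j ∧ α j ≠ β j) →
      (∀ j, ∑ i, ((α j i : ℂ) - β j i) * L b i = 0) → b = 0)
    (κ : J → (Fin n → ℕ) → ℂ) (hκ : ∀ j, ∃ α ∈ S j, κ j α ≠ 0) (Λ : Set (Ew d × (Fin n → ℂ)))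
    (hopen : LamOpen L Λ) (hΛ : ∀ v ∈ Λ, ∀ j, esum (S j) (κ j) v.2 = 0)
    (hconj : ∀ ζ : Ew d, ∃ ζ' : Ew d, ∀ i, L ζ' i = (starRingEnd ℂ) (L ζ i))
    (hm : ∀ m : Fin n → ℤ, m ≠ 0 → ∃ ζ : Ew d, ∑ i, (m i : ℂ) * L ζ i ≠ 0)
    {v : Ew d × (Fin n → ℂ)} (hv : v ∈ Λ) (ζ₀ : Ew d) (hre : ∀ i, L ζ₀ i = ((v.2 i).re : ℂ))
    {ε : ℝ} (hε : 0 < ε) :
    ∃ v' ∈ Λ, ∃ m : Fin n → ℤ, (∀ i, L v'.1 i - v'.2 i = 2 * Real.pi * Complex.I * m i) ∧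
      ‖v'.2 - v.2‖ ≤ ε := by
  let T : Submodule ℝ (Fin n → ℝ) :=
    { carrier := {τ | ∃ ζ : Ew d, ∀ i, L ζ i = (τ i : ℂ)}
      add_mem' := by
        rintro a b ⟨ζ, hζ⟩ ⟨ξ, hξ⟩
        refine ⟨ζ + ξ, fun i => ?_⟩
        rw [map_add, Pi.add_apply, hζ, hξ, Pi.add_apply, Complex.ofReal_add]
      zero_mem' := ⟨0, fun i => by rw [map_zero, Pi.zero_apply, Pi.zero_apply, Complex.ofReal_zero]⟩
      smul_mem' := by
        rintro c a ⟨ζ, hζ⟩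
        refine ⟨(c : ℂ) • ζ, fun i => ?_⟩
        rw [map_smul, Pi.smul_apply, hζ, Pi.smul_apply, smul_eq_mul, smul_eq_mul,
          Complex.ofReal_mul] }
  have hTmem : ∀ τ : Fin n → ℝ, τ ∈ T ↔ ∃ ζ : Ew d, ∀ i, L ζ i = (τ i : ℂ) := fun τ => Iff.rfl
  have hT : ∀ m : Fin n → ℤ, m ≠ 0 → ∃ τ ∈ T, ∑ i, (m i : ℝ) * τ i ≠ 0 := by
    intro m hm0
    obtain ⟨ζ, hζ⟩ := hm m hm0
    obtain ⟨ξ, hξ⟩ := hconj ζ
    by_contra hcon
    push Not at hcon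
    have h1 : (fun i => (L ζ i).re) ∈ T := by
      rw [hTmem]
      refine ⟨(1 / 2 : ℂ) • (ζ + ξ), fun i => ?_⟩
      rw [map_smul, map_add, Pi.smul_apply, Pi.add_apply, hξ, smul_eq_mul, Complex.add_conj]
      push_cast
      ring
    have h2 : (fun i => (L ζ i).im) ∈ T := by
      rw [hTmem]
      refine ⟨(1 / (2 * Complex.I) : ℂ) • (ζ - ξ), fun i => ?_⟩
      rw [map_smul, map_sub, Pi.smul_apply, Pi.sub_apply, hξ, smul_eq_mul, Complex.sub_conj]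
      have hI : Complex.I ≠ 0 := Complex.I_ne_zero
      push_cast
      field_simp
    have e1 := hcon _ h1
    have e2 := hcon _ h2
    apply hζ
    apply Complex.ext
    · rw [Complex.re_sum, Complex.zero_re, ← e1]
      refine Finset.sum_congr rfl fun i _ => ?_
      simp [Complex.mul_re]
    · rw [Complex.im_sum, Complex.zero_im, ← e2]
      refine Finset.sum_congr rfl fun i _ => ?_
      simp [Complex.mul_im]
  have hC : 0 < 2 * ‖L‖ + 1 := by positivity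
  set ε' : ℝ := ε / (2 * ‖L‖ + 1) with hε'def
  have hε' : 0 < ε' := div_pos hε hC
  obtain ⟨c₀, hc₀, hop⟩ := hopen ε' hε'
  obtain ⟨τ, hτ, m, hτm⟩ := kronecker T hT (fun i => (v.2 i).im) (lt_min hc₀ hε')
  obtain ⟨ζ₁, hζ₁⟩ := (hTmem τ).1 hτ
  obtain ⟨v'', hv'', hd, he⟩ := chain S L hsel κ hκ Λ hopen hΛ hv (ζ₀ + Complex.I • ζ₁) hε'
  have hval : ∀ i, (L v''.1 - v''.2) i = Complex.I * ((τ i - (v.2 i).im : ℝ) : ℂ) := by
    intro i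
    rw [he, Pi.sub_apply, map_add, map_smul, Pi.add_apply, Pi.smul_apply, hre, hζ₁, smul_eq_mul]
    apply Complex.ext <;> simp
  have hcd : ‖(fun i => 2 * Real.pi * Complex.I * (m i : ℂ)) - (L v''.1 - v''.2)‖ ≤ min c₀ ε' := by
    rw [pi_norm_le_iff_of_nonneg (lt_min hc₀ hε').le]
    intro i
    have e : ((fun i => 2 * Real.pi * Complex.I * (m i : ℂ)) - (L v''.1 - v''.2)) i =
        Complex.I * ((-(τ i - (v.2 i).im - 2 * Real.pi * m i) : ℝ) : ℂ) := by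
      rw [Pi.sub_apply, hval]
      push_cast
      ring
    rw [e, norm_mul, Complex.norm_I, one_mul, Complex.norm_real, norm_neg, Real.norm_eq_abs]
    exact hτm i
  obtain ⟨v', hv', hd', he'⟩ := hop v'' hv'' _ (hcd.trans (min_le_left _ _))
  refine ⟨v', hv', m, fun i => ?_, ?_⟩
  · have := congrFun he' i
    rw [Pi.sub_apply] at this
    exact this
  · have key : v'.2 - v.2 = L (v'.1 - v''.1) + L (v''.1 - (ζ₀ + Complex.I • ζ₁)) -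
        ((fun i => 2 * Real.pi * Complex.I * (m i : ℂ)) - (L v''.1 - v''.2)) := by
      rw [← he', he, map_sub, map_sub]
      abel
    rw [key]
    have n1 : ‖L (v'.1 - v''.1)‖ ≤ ‖L‖ * ε' :=
      (L.le_opNorm _).trans (mul_le_mul_of_nonneg_left hd' (norm_nonneg _))
    have n2 : ‖L (v''.1 - (ζ₀ + Complex.I • ζ₁))‖ ≤ ‖L‖ * ε' :=
      (L.le_opNorm _).trans (mul_le_mul_of_nonneg_left hd (norm_nonneg _))
    have n3 := hcd.trans (min_le_right _ _)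
    have hfin : (2 * ‖L‖ + 1) * ε' = ε := by
      rw [hε'def]
      field_simp
    calc _ ≤ ‖L (v'.1 - v''.1) + L (v''.1 - (ζ₀ + Complex.I • ζ₁))‖ +
          ‖(fun i => 2 * Real.pi * Complex.I * (m i : ℂ)) - (L v''.1 - v''.2)‖ := norm_sub_le _ _
      _ ≤ (‖L‖ * ε' + ‖L‖ * ε') + ε' :=
          add_le_add ((norm_add_le _ _).trans (add_le_add n1 n2)) n3
      _ = ε := by rw [← hfin]; ring

end Pool.Agent.Lib.MP_209724_lc.GD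
end

section

namespace Pool.Agent.Lib.MP_209724_lc.GD

open Filter Topology Metric Set
open GS (Ew)

variable {n d : ℕ}

private theorem esum_cont (S : Finset (Fin n → ℕ)) (κ : (Fin n → ℕ) → ℂ) :
    Continuous fun w : Fin n → ℂ => esum S κ w := by
  unfold esum
  fun_prop

/-- restriction to the first coordinates -/
private noncomputable def res (d : ℕ) : Ew (d + 1) →ₗ[ℂ] Ew d where
  toFun z := WithLp.toLp 2 fun i => z (Fin.castSucc i)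
  map_add' x y := by
    ext i
    simp
  map_smul' a x := by
    ext i
    simp

/-- `z ↦ z_last b` -/
private noncomputable def lst (d : ℕ) (b : Fin n → ℝ) : Ew (d + 1) →ₗ[ℂ] (Fin n → ℂ) where
  toFun z := fun i => z (Fin.last d) * b i
  map_add' x y := by
    funext i
    simp [add_mul]
  map_smul' a x := by
    funext i
    simp [mul_assoc]

/-- **The contradiction.** There is no set `Λ` containing `0` such that `(ζ, w) ↦ L ζ - w` is uniformly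
open on `Λ`, the `w` are zeros of exponential sums nondegenerate for `L`, and the `w` with
`L ζ - w ∈ 2πi ℤⁿ` are zeros of exponential sums nondegenerate for `L ⊕ b`, `b` a real vector.

Proof. Let `c₀` be the constant of `hopen` for `R₀ = 1`. For real `θ` with `‖θ • b‖ ≤ c₀` apply `hopen` to
`v = 0`, `c = -(i θ) b`: there is `v_θ ∈ Λ` with `L v_θ.1 - v_θ.2 = -(i θ) b`, so
`v_θ.2 = L v_θ.1 + (i θ) b`. The real part of `v_θ.2` is that of `L v_θ.1` (`b` real), which by `hconj` is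
`L ((ζ + ζ')/2)`. By `recur`, `v_θ.2` is a limit of `v'.2` with `v' ∈ Λ`, `L v'.1 - v'.2 ∈ 2πi ℤⁿ`, so by
`hΛ'` and continuity of `esum`, `esum (S' j) (κ' j) v_θ.2 = 0` for all `j`. Let
`ℓ : Ew (d + 1) → ℂⁿ`, `ℓ z = L (z restricted to the first d coordinates) + z_last b` (a continuous linear
map). By `hsel'` it satisfies the hypothesis of `countable_of_sel`, so the zeros `z` of the
`esum (S' j) (κ' j) (ℓ z)` are countable. But the points `(v_θ.1, i θ)` are uncountably many different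
zeros (`θ` in an interval `(0, θ₀)`). -/
theorem no_limit_set {J : Type} [Fintype J] (S : J → Finset (Fin n → ℕ))
    (L : Ew d →L[ℂ] (Fin n → ℂ))
    (hsel : ∀ b : Ew d, ∀ α β : J → Fin n → ℕ, (∀ j, α j ∈ S j ∧ β j ∈ S j ∧ α j ≠ β j) →
      (∀ j, ∑ i, ((α j i : ℂ) - β j i) * L b i = 0) → b = 0)
    (κ : J → (Fin n → ℕ) → ℂ) (hκ : ∀ j, ∃ α ∈ S j, κ j α ≠ 0) (Λ : Set (Ew d × (Fin n → ℂ)))
    (h0 : (0 : Ew d × (Fin n → ℂ)) ∈ Λ)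
    (hopen : LamOpen L Λ) (hΛ : ∀ v ∈ Λ, ∀ j, esum (S j) (κ j) v.2 = 0)
    (hconj : ∀ ζ : Ew d, ∃ ζ' : Ew d, ∀ i, L ζ' i = (starRingEnd ℂ) (L ζ i))
    (hm : ∀ m : Fin n → ℤ, m ≠ 0 → ∃ ζ : Ew d, ∑ i, (m i : ℂ) * L ζ i ≠ 0)
    {J' : Type} [Fintype J'] (S' : J' → Finset (Fin n → ℕ)) (b : Fin n → ℝ)
    (hsel' : ∀ ζ : Ew d, ∀ s : ℂ, ∀ α β : J' → Fin n → ℕ,
      (∀ j, α j ∈ S' j ∧ β j ∈ S' j ∧ α j ≠ β j) →
      (∀ j, ∑ i, ((α j i : ℂ) - β j i) * (L ζ i + s * b i) = 0) → ζ = 0 ∧ s = 0)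
    (κ' : J' → (Fin n → ℕ) → ℂ) (hκ' : ∀ j, ∃ α ∈ S' j, κ' j α ≠ 0)
    (hΛ' : ∀ v ∈ Λ, ∀ m : Fin n → ℤ, (∀ i, L v.1 i - v.2 i = 2 * Real.pi * Complex.I * m i) →
      ∀ j, esum (S' j) (κ' j) v.2 = 0) :
    False := by
  obtain ⟨c₀, hc₀, hop⟩ := hopen 1 one_pos
  set θ₀ : ℝ := c₀ / (‖b‖ + 1) with hθ₀
  have hb1 : 0 < ‖b‖ + 1 := by positivity
  have hθ₀pos : 0 < θ₀ := div_pos hc₀ hb1
  have key : ∀ θ : ℝ, ∃ v : Ew d × (Fin n → ℂ), θ ∈ Ioo 0 θ₀ →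
      (∀ i, v.2 i = L v.1 i + Complex.I * θ * b i) ∧
      ∀ j, esum (S' j) (κ' j) v.2 = 0 := by
    intro θ
    by_cases hθ : θ ∈ Ioo 0 θ₀
    swap
    · exact ⟨0, fun h => absurd h hθ⟩
    obtain ⟨hθ1, hθ2⟩ := hθ
    have hnorm : ‖(fun i => -(Complex.I * θ * b i) : Fin n → ℂ) - (L (0 : Ew d × (Fin n → ℂ)).1 -
        (0 : Ew d × (Fin n → ℂ)).2)‖ ≤ c₀ := by
      rw [Prod.fst_zero, Prod.snd_zero, map_zero, sub_zero, sub_zero,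
        pi_norm_le_iff_of_nonneg hc₀.le]
      intro i
      rw [norm_neg, norm_mul, norm_mul, Complex.norm_I, one_mul, Complex.norm_real,
        Complex.norm_real, Real.norm_eq_abs, abs_of_pos hθ1]
      have h1 : ‖b i‖ ≤ ‖b‖ := norm_le_pi_norm b i
      have h2 : θ * (‖b‖ + 1) ≤ c₀ := by
        rw [← le_div_iff₀ hb1]
        exact hθ2.le
      have h3 : θ * ‖b i‖ ≤ θ * ‖b‖ := mul_le_mul_of_nonneg_left h1 hθ1.le
      nlinarith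
    obtain ⟨v, hv, -, hvc⟩ := hop 0 h0 _ hnorm
    have hv2 : ∀ i, v.2 i = L v.1 i + Complex.I * θ * b i := by
      intro i
      have h1 := congrFun hvc i
      rw [Pi.sub_apply] at h1
      linear_combination -h1
    refine ⟨v, fun _ => ⟨hv2, fun j => ?_⟩⟩
    -- the real part of `v.2`
    obtain ⟨ζ', hζ'⟩ := hconj v.1
    have hre : ∀ i, L ((1 / 2 : ℂ) • (v.1 + ζ')) i = ((v.2 i).re : ℂ) := by
      intro i
      rw [map_smul, map_add, Pi.smul_apply, Pi.add_apply, hζ' i, smul_eq_mul, Complex.add_conj,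
        hv2 i]
      have h1 : (Complex.I * (θ : ℂ) * (b i : ℂ)).re = 0 := by
        rw [mul_assoc, ← Complex.ofReal_mul, Complex.I_mul_re, Complex.ofReal_im, neg_zero]
      rw [Complex.add_re, h1, add_zero]
      push_cast
      ring
    -- approximation
    have hclosed : IsClosed {w : Fin n → ℂ | esum (S' j) (κ' j) w = 0} :=
      isClosed_eq (esum_cont _ _) continuous_const
    have hmem : v.2 ∈ closure {w : Fin n → ℂ | esum (S' j) (κ' j) w = 0} := by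
      rw [Metric.mem_closure_iff]
      intro ε hε
      obtain ⟨v', hv', m, hm1, hm2⟩ := recur S L hsel κ hκ Λ hopen hΛ hconj hm hv _ hre
        (half_pos hε)
      refine ⟨v'.2, hΛ' v' hv' m hm1 j, ?_⟩
      rw [dist_comm, dist_eq_norm]
      linarith
    rw [hclosed.closure_eq] at hmem
    exact hmem
  choose v hv using key
  -- the linear map
  set ℓ : Ew (d + 1) →L[ℂ] (Fin n → ℂ) :=
    LinearMap.toContinuousLinearMap ((L : Ew d →ₗ[ℂ] (Fin n → ℂ)).comp (res d) + lst d b) with hℓ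
  have hℓv : ∀ z i, ℓ z i = L (res d z) i + z (Fin.last d) * b i := fun z i => rfl
  have hcount := countable_of_sel S' ℓ (by
    intro z α β hαβ hz
    obtain ⟨h1, h2⟩ := hsel' (res d z) (z (Fin.last d)) α β hαβ hz
    ext i
    refine Fin.lastCases ?_ (fun i => ?_) i
    · exact h2
    · have h3 := congrArg (fun w : Ew d => w i) h1
      exact h3) κ' hκ'
  -- uncountably many zeros
  let ξ : ℝ → Ew (d + 1) := fun θ =>
    WithLp.toLp 2 (Fin.snoc (fun i => (v θ).1 i) (Complex.I * θ) : Fin (d + 1) → ℂ)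
  have hξlast : ∀ θ, ξ θ (Fin.last d) = Complex.I * θ := fun θ => by
    show (Fin.snoc (fun i => (v θ).1 i) (Complex.I * θ) : Fin (d + 1) → ℂ) (Fin.last d) = _
    rw [Fin.snoc_last]
  have hξres : ∀ θ, res d (ξ θ) = (v θ).1 := fun θ => by
    ext i
    show (Fin.snoc (fun i => (v θ).1 i) (Complex.I * θ) : Fin (d + 1) → ℂ) (Fin.castSucc i) = _
    rw [Fin.snoc_castSucc]
  have hξ : ∀ θ ∈ Ioo 0 θ₀, ξ θ ∈ {ξ : Ew (d + 1) | ∀ j, esum (S' j) (κ' j) (ℓ ξ) = 0} := by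
    intro θ hθ j
    obtain ⟨h1, h2⟩ := hv θ hθ
    have h3 : ℓ (ξ θ) = (v θ).2 := by
      funext i
      rw [hℓv, hξres, hξlast, h1 i]
    rw [h3]
    exact h2 j
  have hinj : InjOn ξ (Ioo 0 θ₀) := by
    intro θ _ θ' _ h
    have h1 := congrArg (fun w : Ew (d + 1) => w (Fin.last d)) h
    simp only [hξlast] at h1
    have h2 := mul_left_cancel₀ Complex.I_ne_zero h1
    exact_mod_cast h2
  have hIoo : (Ioo (0 : ℝ) θ₀).Countable := MapsTo.countable_of_injOn hξ hinj hcount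
  have hd := hIoo.dense_compl ℝ
  obtain ⟨θ, hθ1, hθ2⟩ := hd.exists_mem_open isOpen_Ioo (nonempty_Ioo.2 hθ₀pos)
  exact hθ1 hθ2

end Pool.Agent.Lib.MP_209724_lc.GD
end

section

/-!
# Exponential points outside of `D = 0` over a family of sheets in a purely imaginary direction
-/

namespace Pool.Agent.Lib.MP_209724_lc.GD

open MvPolynomial Filter Topology Metric Set
open GC (prj)
open GS (Ew)
open GP

variable {n d k : ℕ}

/-- the points of the family at which `β(Z x, y_B) ≠ 0` -/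
def Good {L : Type} [Field L] [Algebra ℂ L] (ξ υ : Fin n → L) (Z : Fin d → Fin n → ℂ)
    (B : Fin k → Fin n) (β : MvPolynomial (Fin d ⊕ Fin k) ℂ) (x : Ew d → Fin n → ℂ)
    (S : Set (Ew d)) : Set (Ew d × (Fin n → ℂ)) :=
  {v | v ∈ Fam ξ υ x S ∧ pf Z B β x v ≠ 0}

private theorem exp_shift (u : ℂ) (m : ℤ) :
    Complex.exp (u + 2 * Real.pi * Complex.I * m) = Complex.exp u := by
  have h : u + 2 * Real.pi * Complex.I * m = u + m * (2 * Real.pi * Complex.I) := by ring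
  rw [h, Complex.exp_add, Complex.exp_int_mul_two_pi_mul_I, mul_one]

/-- the exponential sums are periodic -/
theorem esum_shift (S : Finset (Fin n → ℕ)) (κ : (Fin n → ℕ) → ℂ) (w : Fin n → ℂ)
    (m : Fin n → ℤ) :
    esum S κ (fun i => w i + 2 * Real.pi * Complex.I * m i) = esum S κ w := by
  unfold esum
  refine Finset.sum_congr rfl fun α _ => ?_
  congr 1
  have h : ∑ i, (α i : ℂ) * (w i + 2 * Real.pi * Complex.I * m i) =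
      ∑ i, (α i : ℂ) * w i + 2 * Real.pi * Complex.I * ((∑ i, (α i : ℤ) * m i : ℤ) : ℂ) := by
    push_cast
    rw [Finset.mul_sum, ← Finset.sum_add_distrib]
    refine Finset.sum_congr rfl fun i _ => ?_
    ring
  rw [h, exp_shift]

/-- **Exponential points over the sheets, outside of `D = 0`.** -/
theorem local_dense {L : Type} [Field L] [Algebra ℂ L] (ξ υ : Fin n → L)
    (Z : Fin d → Fin n → ℂ) (B : Fin (k + 1) → Fin n) (e : Fin d ⊕ Fin (k + 1) ≃ Fin n)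
    (β : MvPolynomial (Fin d ⊕ Fin (k + 1)) ℂ)
    (hV : ∀ x₀ y₀ : Fin n → ℂ, OnV ξ υ x₀ y₀ →
      eval (Sum.elim (prj Z x₀) fun j => y₀ (B j)) β ≠ 0 →
      ∃ (δ : ℝ) (Φ Ψ : (Fin d ⊕ Fin (k + 1) → ℂ) → Fin n → ℂ), 0 < δ ∧
        Φ (Sum.elim (prj Z x₀) fun j => y₀ (B j)) = x₀ ∧
        Ψ (Sum.elim (prj Z x₀) fun j => y₀ (B j)) = y₀ ∧
        DifferentiableOn ℂ Φ (ball (Sum.elim (prj Z x₀) fun j => y₀ (B j)) δ) ∧
        DifferentiableOn ℂ Ψ (ball (Sum.elim (prj Z x₀) fun j => y₀ (B j)) δ) ∧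
        ∀ s ∈ ball (Sum.elim (prj Z x₀) fun j => y₀ (B j)) δ, OnV ξ υ (Φ s) (Ψ s) ∧
          (∀ j, prj Z (Φ s) j = s (Sum.inl j)) ∧ ∀ j, Ψ s (B j) = s (Sum.inr j))
    (t₀ : Ew d) {ρ δ : ℝ} (hδ : 0 < δ) (hδρ : δ < ρ) (r : ℕ → ℝ) (hr0 : ∀ ν, 0 < r ν)
    (hr : Tendsto r atTop atTop) (X : ℕ → Ew d → Fin n → ℂ)
    (hX : ∀ ν, DifferentiableOn ℂ (X ν) (ball t₀ ρ)) (H : Ew d → Fin n → ℂ)
    (hH : DifferentiableOn ℂ H (ball t₀ ρ))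
    (hXH : ∀ ε : ℝ, 0 < ε → ∀ᶠ ν in atTop, ∀ t ∈ ball t₀ ρ, ‖X ν t - H t‖ ≤ ε)
    (hXW : ∀ ν, ∀ t ∈ ball t₀ ρ, OnW ξ ((r ν : ℂ) • X ν t))
    (hXZ : ∀ ν, ∀ t ∈ ball t₀ ρ, ∀ j, prj Z (X ν t) j = t j)
    (F D : Fin n → MvPolynomial (Fin n) ℂ) (hF : ∀ i, aeval ξ (F i) = 0)
    (hFD : ∀ i, ∀ z b : Fin n → ℂ, prj Z b = 0 →
      ∑ k, b k * eval z (pderiv k (F i)) = b i * eval z (D i))
    (hD : ∀ ν, ∀ t ∈ ball t₀ ρ, ∀ i, eval ((r ν : ℂ) • X ν t) (D i) ≠ 0)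
    (S : {I : Finset (Fin n) // I.card = k + 1 + 1} → Finset (Fin n → ℕ))
    (hS : ∀ I, (S I).Nonempty)
    (c : {I : Finset (Fin n) // I.card = k + 1 + 1} → (Fin n → ℕ) → MvPolynomial (Fin n) ℂ)
    (hrel : ∀ I, ∑ α ∈ S I, aeval ξ (c I α) * ∏ i, υ i ^ α i = 0) (C : ℕ)
    (hc : ∀ I, ∀ α ∈ S I, ∀ᶠ ν in atTop, ∀ t ∈ ball t₀ ρ,
      (r ν ^ C)⁻¹ ≤ ‖eval ((r ν : ℂ) • X ν t) (c I α)‖ ∧
        ‖eval ((r ν : ℂ) • X ν t) (c I α)‖ ≤ r ν ^ C)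
    (hc0 : ∀ ν, ∀ I, ∀ α ∈ S I, ∀ t ∈ ball t₀ ρ, eval ((r ν : ℂ) • X ν t) (c I α) ≠ 0)
    (hsel : ∀ t, ‖t - t₀‖ ≤ δ → ∀ b : Ew d,
      ∀ α β : {I : Finset (Fin n) // I.card = k + 1 + 1} → Fin n → ℕ,
      (∀ j, α j ∈ S j ∧ β j ∈ S j ∧ α j ≠ β j) →
      (∀ j, ∑ i, ((α j i : ℂ) - β j i) * fderiv ℂ H t b i = 0) → b = 0)
    (A : ℕ → ℝ) (hA : ∀ ε : ℝ, 0 < ε → ∀ᶠ ν in atTop, Real.log (A ν) ≤ ε * r ν)
    (hcen : ∀ ν, ∃ y : Fin n → ℂ, OnV ξ υ ((r ν : ℂ) • X ν t₀) y ∧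
      eval (Sum.elim (prj Z ((r ν : ℂ) • X ν t₀)) fun j => y (B j)) β ≠ 0 ∧ (∀ i, y i ≠ 0) ∧
      ∀ i, ‖y i‖ ≤ A ν ∧ ‖(y i)⁻¹‖ ≤ A ν)
    (hre : ∀ i, (H t₀ i).re = 0)
    -- the relations on `D = 0`
    (Dp : MvPolynomial (Fin n ⊕ Fin n) ℂ)
    (S' : {I : Finset (Fin n) // I.card = k + 1} → Finset (Fin n → ℕ))
    (hS' : ∀ I, (S' I).Nonempty)
    (c' : {I : Finset (Fin n) // I.card = k + 1} → (Fin n → ℕ) → MvPolynomial (Fin n) ℂ)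
    (hrel' : ∀ I, ∀ x y : Fin n → ℂ, OnV ξ υ x y → eval (Sum.elim x y) Dp = 0 →
      ∑ α ∈ S' I, eval x (c' I α) * ∏ i, y i ^ α i = 0) (C' : ℕ)
    (hc' : ∀ I, ∀ α ∈ S' I, ∀ᶠ ν in atTop, ∀ t ∈ ball t₀ ρ,
      (r ν ^ C')⁻¹ ≤ ‖eval ((r ν : ℂ) • X ν t) (c' I α)‖ ∧
        ‖eval ((r ν : ℂ) • X ν t) (c' I α)‖ ≤ r ν ^ C')
    (hc0' : ∀ ν, ∀ I, ∀ α ∈ S' I, ∀ t ∈ ball t₀ ρ, eval ((r ν : ℂ) • X ν t) (c' I α) ≠ 0)
    (b : Fin n → ℝ)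
    (hsel' : ∀ (ζ : Ew d) (s : ℂ), ∀ α β : {I : Finset (Fin n) // I.card = k + 1} → Fin n → ℕ,
      (∀ j, α j ∈ S' j ∧ β j ∈ S' j ∧ α j ≠ β j) →
      (∀ j, ∑ i, ((α j i : ℂ) - β j i) * (fderiv ℂ H t₀ ζ i + s * b i) = 0) → ζ = 0 ∧ s = 0)
    (hconj : ∀ ζ : Ew d, ∃ ζ' : Ew d, ∀ i,
      fderiv ℂ H t₀ ζ' i = (starRingEnd ℂ) (fderiv ℂ H t₀ ζ i))
    (hm : ∀ m : Fin n → ℤ, m ≠ 0 → ∃ ζ : Ew d, ∑ i, (m i : ℂ) * fderiv ℂ H t₀ ζ i ≠ 0) :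
    ∃ᶠ ν in atTop, ∃ t, ‖t - t₀‖ ≤ δ ∧
      OnV ξ υ ((r ν : ℂ) • X ν t) (fun i => Complex.exp ((r ν : ℂ) * X ν t i)) ∧
      eval (Sum.elim ((r ν : ℂ) • X ν t) fun i => Complex.exp ((r ν : ℂ) * X ν t i)) Dp ≠ 0 := by
  classical
  by_contra hcon
  rw [not_frequently] at hcon
  have hρ : 0 < ρ := hδ.trans hδρ
  have ht₀ : t₀ ∈ ball t₀ ρ := mem_ball_self hρ
  obtain ⟨x, hx⟩ : ∃ x : ℕ → Ew d → Fin n → ℂ, x = fun ν t => (r ν : ℂ) • X ν t := ⟨_, rfl⟩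
  have hxd : ∀ ν, DifferentiableOn ℂ (x ν) (ball t₀ ρ) := fun ν => by
    rw [hx]
    exact (hX ν).const_smul (r ν : ℂ)
  obtain ⟨G, hG⟩ : ∃ G : ℕ → Set (Ew d × (Fin n → ℂ)), G = fun ν => Good ξ υ Z B β (x ν)
    (ball t₀ ρ) := ⟨_, rfl⟩
  have hGm : ∀ ν v, v ∈ G ν ↔ v ∈ Fam ξ υ (x ν) (ball t₀ ρ) ∧ pf Z B β (x ν) v ≠ 0 := by
    intro ν v
    rw [hG]
    rfl
  -- uniform openness
  have huo : UnifOpen r x G t₀ δ := by
    intro R₀ hR₀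
    obtain ⟨c₀, hc₀, h⟩ := uniform_openness ξ υ Z B e β hV t₀ hδ hδρ r hr0 hr X hX H hH hXH hXW hXZ
      F D hF hFD hD S hS c hrel C hc hc0 hsel hR₀
    refine ⟨c₀, hc₀, ?_⟩
    filter_upwards [h] with ν h v hv hvt cc hcc η hη
    rw [hGm] at hv
    have hxν : x ν = fun t => (r ν : ℂ) • X ν t := by rw [hx]
    rw [hxν] at hv hcc ⊢
    obtain ⟨v', h1, h2, h3, h4⟩ := h v hv.1 hvt hv.2 cc hcc η hη
    refine ⟨v', ?_, h2, h3⟩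
    rw [hGm, hxν]
    exact ⟨h1, h4⟩
  -- exact points near approximate ones
  have hex : ∀ R₀ : ℝ, 0 < R₀ → ∃ c₀ : ℝ, 0 < c₀ ∧ ∀ᶠ ν in atTop, ∀ v ∈ G ν,
      ‖v.1 - t₀‖ ≤ δ / 2 → ‖x ν v.1 - v.2‖ ≤ c₀ →
      ∃ v' ∈ Fam ξ υ (x ν) (ball t₀ ρ), ‖v'.1 - v.1‖ ≤ R₀ / r ν ∧ x ν v'.1 = v'.2 := by
    intro R₀ hR₀
    obtain ⟨c₀, hc₀, h⟩ := huo R₀ hR₀
    refine ⟨c₀, hc₀, ?_⟩
    have hsmall : ∀ᶠ ν in atTop, R₀ / r ν < δ / 2 :=
      (hr.const_div_atTop R₀).eventually_lt_const (by positivity)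
    filter_upwards [h, hsmall] with ν h hsmall v hv hvt hvF
    have hKb : closedBall v.1 (R₀ / r ν) ⊆ ball t₀ ρ := by
      intro t ht
      rw [mem_closedBall] at ht
      rw [mem_ball]
      have h1 : dist t t₀ ≤ dist t v.1 + dist v.1 t₀ := dist_triangle _ _ _
      rw [dist_eq_norm v.1 t₀] at h1
      linarith
    have hKset : {v' | v' ∈ Fam ξ υ (x ν) (ball t₀ ρ) ∧ ‖v'.1 - v.1‖ ≤ R₀ / r ν ∧
        ‖x ν v'.1 - v'.2‖ ≤ 1} =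
        {v' | v' ∈ Fam ξ υ (x ν) (ball t₀ ρ) ∧ v'.1 ∈ closedBall v.1 (R₀ / r ν) ∧
          ‖x ν v'.1 - v'.2 - 0‖ ≤ 1} := by
      ext v'
      simp only [mem_ofPred_eq, mem_closedBall, dist_eq_norm, sub_zero]
    have hKc : IsCompact {v' | v' ∈ Fam ξ υ (x ν) (ball t₀ ρ) ∧ ‖v'.1 - v.1‖ ≤ R₀ / r ν ∧
        ‖x ν v'.1 - v'.2‖ ≤ 1} := by
      rw [hKset]
      exact fam_compact ξ υ (x ν) (hxd ν).continuousOn (isCompact_closedBall _ _) hKb _ _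
    obtain ⟨v', hv', h1, h2⟩ := exists_exact (F := fun v => x ν v.1 - v.2) hKc (by
      refine ContinuousOn.sub ?_ continuous_snd.continuousOn
      refine (hxd ν).continuousOn.comp continuous_fst.continuousOn ?_
      rintro v' ⟨h1, -, -⟩
      exact h1.1) (by
      intro η hη
      obtain ⟨v', h1, h2, h3⟩ := h v hv (hvt.trans (half_le_self hδ.le)) 0 (by
        rw [zero_sub, norm_neg]
        exact hvF) η hη
      rw [sub_zero] at h3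
      exact ⟨v', ((hGm ν v').1 h1).1, h2, h3⟩)
    exact ⟨v', hv', h1, sub_eq_zero.1 h2⟩
  -- the centers over `t₀`
  choose y hyV hyβ hy0 hyA using hcen
  choose u hu1 hu2 hu3 using fun (ν : ℕ) (i : Fin n) =>
    exists_arg ((r ν : ℂ) * X ν t₀ i) (y ν i) (hy0 ν i)
  have hsmall : ∀ ε : ℝ, 0 < ε → ∀ᶠ ν in atTop, ‖x ν (t₀, u ν).1 - (t₀, u ν).2‖ ≤ ε * r ν := by
    intro ε hε
    have hπ : ∀ᶠ ν in atTop, Real.pi ≤ ε / 3 * r ν := by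
      have := hr.const_mul_atTop (show 0 < ε / 3 by positivity)
      exact this.eventually_ge_atTop Real.pi
    filter_upwards [hXH (ε / 3) (by positivity), hA (ε / 3) (by positivity), hπ] with ν h1 h2 h3
    rw [pi_norm_le_iff_of_nonneg (by have := hr0 ν; positivity)]
    intro i
    have hxi : (x ν (t₀, u ν).1 - (t₀, u ν).2) i = (r ν : ℂ) * X ν t₀ i - u ν i := by
      rw [hx]
      rfl
    rw [hxi]
    have h4 : ‖(r ν : ℂ) * X ν t₀ i - u ν i‖ ≤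
        |((r ν : ℂ) * X ν t₀ i - u ν i).re| + |((r ν : ℂ) * X ν t₀ i - u ν i).im| :=
      Complex.norm_le_abs_re_add_abs_im _
    have h5 : |((r ν : ℂ) * X ν t₀ i - u ν i).im| ≤ Real.pi := hu3 ν i
    have h6 : ((r ν : ℂ) * X ν t₀ i - u ν i).re = r ν * (X ν t₀ i).re - (u ν i).re := by
      simp only [Complex.sub_re, Complex.re_ofReal_mul]
    have h7 : |(X ν t₀ i).re| ≤ ε / 3 := by
      have h8 := h1 t₀ ht₀
      have h9 := (norm_le_pi_norm (X ν t₀ - H t₀) i).trans h8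
      have h10 := (Complex.abs_re_le_norm _).trans h9
      rw [Pi.sub_apply, Complex.sub_re, hre i, sub_zero] at h10
      exact h10
    have h8 : |(u ν i).re| ≤ ε / 3 * r ν := by
      rw [hu2 ν i]
      exact (abs_log_le (hyA ν i).1 (hyA ν i).2 (hy0 ν i)).trans h2
    have h9 : |r ν * (X ν t₀ i).re - (u ν i).re| ≤ r ν * (ε / 3) + ε / 3 * r ν := by
      refine (abs_sub _ _).trans (add_le_add ?_ h8)
      rw [abs_mul, abs_of_pos (hr0 ν)]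
      exact mul_le_mul_of_nonneg_left h7 (hr0 ν).le
    rw [h6] at h4
    linarith
  have hv₀ : ∀ ν, ((t₀, u ν) : Ew d × (Fin n → ℂ)) ∈ G ν := by
    intro ν
    have h1 : (fun i => Complex.exp (u ν i)) = y ν := funext fun i => hu1 ν i
    rw [hGm]
    refine ⟨⟨ht₀, ?_⟩, ?_⟩
    · rw [h1, hx]
      exact hyV ν
    · unfold pf
      have h2 : (fun j => Complex.exp ((t₀, u ν).2 (B j))) = fun j => y ν (B j) :=
        funext fun j => hu1 ν (B j)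
      rw [h2, hx]
      exact hyβ ν
  obtain ⟨cen, hcenG, hcen1, hcen2⟩ := exists_centers r hr0 hr x G hδ huo
    (fun ν => (t₀, u ν)) hv₀ (fun ν => rfl) hsmall
  -- the ultrafilter
  obtain ⟨𝒰, h𝒰⟩ : ∃ 𝒰 : Ultrafilter ℕ, (𝒰 : Filter ℕ) ≤ atTop :=
    ⟨Ultrafilter.of atTop, Ultrafilter.of_le atTop⟩
  have hinc : ∀ (a : ℕ → Ew d) (ζ : Ew d),
      Tendsto (fun ν => (r ν : ℂ) • (a ν - (cen ν).1)) 𝒰 (𝓝 ζ) →
      Tendsto (fun ν => x ν (a ν) - x ν (cen ν).1) 𝒰 (𝓝 (fderiv ℂ H t₀ ζ)) := by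
    intro a ζ ha
    rw [hx]
    exact increments_u t₀ hρ r hr0 hr X hX H hH hXH 𝒰 h𝒰 (fun ν => (cen ν).1) a
      (hcen1.mono_left h𝒰) ha
  have hopen := lam_open 𝒰 h𝒰 r hr0 hr x G hδ huo cen hcen1 hcen2 (fderiv ℂ H t₀) hinc
  have hlam0 : (0 : Ew d × (Fin n → ℂ)) ∈ Lam 𝒰 r G cen := by
    refine ⟨cen, h𝒰 hcenG, ?_, ?_⟩
    · simp
    · simp
  -- the relations
  have hcdiff : ∀ (ν : ℕ) (P : MvPolynomial (Fin n) ℂ), DifferentiableOn ℂ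
      (fun t => eval ((r ν : ℂ) • X ν t) P) (ball t₀ ρ) := by
    intro ν P
    have h1 : Differentiable ℂ fun x : Fin n → ℂ => eval x P := by
      intro x
      have h := GS.hasFDerivAt_aeval (fun j (x : Fin n → ℂ) => x j)
        (fun j => (ContinuousLinearMap.proj j : (Fin n → ℂ) →L[ℂ] ℂ)) x
        (fun j => (ContinuousLinearMap.proj j : (Fin n → ℂ) →L[ℂ] ℂ).hasFDerivAt) P
      exact h.differentiableAt
    exact h1.comp_differentiableOn ((hX ν).const_smul (r ν : ℂ))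
  have hcenb : ∀ᶠ ν in atTop, (cen ν).1 ∈ ball t₀ ρ := hcen1 (ball_mem_nhds t₀ hρ)
  choose κ hκ0 hκ using fun I => lam_rel 𝒰 h𝒰 r hr0 hδ cen hcen1 (S I) (hS I)
    (fun ν α t => eval ((r ν : ℂ) • X ν t) (c I α))
    (fun α hα => hcenb.mono fun ν hν => hc0 ν I α hα _ hν)
    (fun α hα R ε hε => ratio_near t₀ hδρ r hr (fun ν t => eval ((r ν : ℂ) • X ν t) (c I α))
      (fun ν => hcdiff ν _) C (hc I α hα) R hε)
  choose κ' hκ0' hκ' using fun I => lam_rel 𝒰 h𝒰 r hr0 hδ cen hcen1 (S' I) (hS' I)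
    (fun ν α t => eval ((r ν : ℂ) • X ν t) (c' I α))
    (fun α hα => hcenb.mono fun ν hν => hc0' ν I α hα _ hν)
    (fun α hα R ε hε => ratio_near t₀ hδρ r hr (fun ν t => eval ((r ν : ℂ) • X ν t) (c' I α))
      (fun ν => hcdiff ν _) C' (hc' I α hα) R hε)
  have hΛ : ∀ v ∈ Lam 𝒰 r G cen, ∀ I, esum (S I) (κ I) v.2 = 0 := by
    rintro v ⟨a, ha, h1, h2⟩ I
    refine hκ I a v h1 h2 ?_
    filter_upwards [ha] with ν hν
    rw [hGm] at hν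
    have h3 := OnV.rel (hrel I) hν.1.2
    rw [hx] at h3
    exact h3
  have hΛ' : ∀ v ∈ Lam 𝒰 r G cen, ∀ m : Fin n → ℤ,
      (∀ i, fderiv ℂ H t₀ v.1 i - v.2 i = 2 * Real.pi * Complex.I * m i) →
      ∀ I, esum (S' I) (κ' I) v.2 = 0 := by
    intro v hv m hvm I
    obtain ⟨a, ha, h1, h2⟩ := lam_exact 𝒰 h𝒰 r hr0 hr x
      (fun ν => Fam ξ υ (x ν) (ball t₀ ρ)) G (half_pos hδ) (by
        intro ν v hv m
        rw [hGm] at hv ⊢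
        refine ⟨⟨hv.1.1, ?_⟩, ?_⟩
        · simp only [exp_shift]
          exact hv.1.2
        · unfold pf
          simp only [exp_shift]
          exact hv.2) hex cen hcen1 hcen2 (fderiv ℂ H t₀) hinc hv m hvm
    rw [← esum_shift _ _ _ m]
    refine hκ' I a (v.1, _) h1 h2 ?_
    filter_upwards [ha, h𝒰 hcon] with ν hν hcν
    obtain ⟨haM, haF, hat⟩ := hν
    push Not at hcν
    have h3 : x ν (a ν).1 = (r ν : ℂ) • X ν (a ν).1 := by rw [hx]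
    have h4 : (fun i => Complex.exp ((a ν).2 i)) =
        fun i => Complex.exp ((r ν : ℂ) * X ν (a ν).1 i) := by
      funext i
      rw [← haF, h3]
      rfl
    have h5 : OnV ξ υ ((r ν : ℂ) • X ν (a ν).1)
        (fun i => Complex.exp ((r ν : ℂ) * X ν (a ν).1 i)) := by
      rw [← h4, ← h3]
      exact haM.2
    have h6 := hcν (a ν).1 (hat.trans (half_le_self hδ.le)) h5
    have h7 := hrel' I _ _ h5 h6
    rw [← h7]
    refine Finset.sum_congr rfl fun α _ => ?_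
    congr 1
    rw [Complex.exp_sum]
    refine Finset.prod_congr rfl fun i _ => ?_
    rw [← Complex.exp_nat_mul, ← haF, h3]
    rfl
  exact no_limit_set S (fderiv ℂ H t₀) (hsel t₀ (by simpa using hδ.le)) κ hκ0 (Lam 𝒰 r G cen)
    hlam0 hopen hΛ hconj hm S' b hsel' κ' hκ0' hΛ'

end Pool.Agent.Lib.MP_209724_lc.GD
end
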